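import Pool.Agent.Helper73.HODC.Defs

/-!
# HX: extendible cardinals
-/

namespace Pool.Agent.Helper73.HX

open Ordinal Cardinal ZFSet Order Pool.Agent.Helper73.HODC

/-- `j` is an elementary embedding of `(V_γ, ∈)` into `(V_β, ∈)` which fixes the ordinals below
`κ`, and `γ < j κ` -/
structure Emb (γ β κ : Ordinal.{0}) (j : ZFSet.{0} → ZFSet.{0}) : Prop where
  maps : ∀ x ∈ V_ γ, j x ∈ V_ β
  elem : ∀ (φ : Fm) (v : ℕ → ZFSet.{0}), (∀ n, v n ∈ V_ γ) →
    (Sat {z | z ∈ V_ γ} φ v ↔ Sat {z | z ∈ V_ β} φ (fun n => j (v n)))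
  fix : ∀ a < κ, j a.toZFSet = a.toZFSet
  crit : γ.toZFSet ∈ j κ.toZFSet

/-- `κ` is extendible: for every ordinal `γ > κ` there are an ordinal `β` and an elementary
embedding `j` of `V_γ` into `V_β` with critical point `κ` and `γ < j κ` -/
def Extendible (κ : Cardinal.{0}) : Prop :=
  ∀ γ : Ordinal.{0}, κ.ord < γ → ∃ β j, Emb γ β κ.ord j

end Pool.Agent.Helper73.HX
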