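import Pool.Agent.Helper73.HX.Fin2
import Pool.Agent.Helper73.HM.Top
import Pool.Agent.Helper73.HV.Top
import Pool.Agent.Helper36.HS.Top

/-! # HX: the theorems, all modules assembled -/

namespace Pool.Agent.Helper73.HX

open Ordinal Cardinal ZFSet Order Pool.Agent.Helper73.HODC Pool.Agent.Helper73.HE
open Pool.Agent.Helper73.HM Pool.Agent.Helper73.HU Pool.Agent.Helper73.HV
open Pool.Agent.Helper36.HS

/-- everything that follows from the failure of the first case of the dichotomy -/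
theorem all (κ : Cardinal.{0}) (hκ : StronglyCompact κ) (hF : Fail κ) :
    ∃ θ : Cardinal.{0}, κ ≤ θ ∧ (Extendible κ → θ = κ) ∧
      (∀ c : Cardinal.{0}, c.IsRegular → θ < c → MitchellChain κ.ord c.ord ∧ ConclS κ θ c) ∧
      (Extendible κ → ∀ c : Cardinal.{0}, c.IsRegular → κ < c → OmegaStronglyMeasurable c.ord) ∧
      Concl κ θ ∧ ∀ σ, θ < σ → ConclF θ σ := by
  have hRefl : StRefl := refl_of Helper32.HM.ra Helper38.HM.rc Helper11.HM.RS.rs
  have hTC : StTC := Helper77.HM.TC.tc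
  have hTS : StTS := Helper12.HM.ts hTC
  have hTD : StTD := td_of hTC hTS
  have hOZ : StOZ := Helper30.HM.oz hTD
  have hHP : StHP := hp_of hTD hOZ
  have hLE : StLE := Helper14.HM.le hTC hOZ
  have hLS : StLS := Helper62.HM.LS.ls hTD
  have hLD : StLD := ld_of hHP hLS
  have hNE : StNE := ne hLE
  have hND : StND := nd re hLD
  have hUD : StUD := ud_of hHP
  have hCF : StCF := Helper14.HM.cf
  have hNMp : StNMap := Helper68.HU.nmap
  have hTR : StTR := Helper68.HU.tr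
  have hRF : StRF := Helper68.HU.rf hRefl hNMp hTR
  have hFO : StFO := Helper68.HU.fo hNMp hTR
  have hCVO : StCVO := cvo hRF Helper66.HM.dj
  have hNSO : StNSO := nso hLE hNE hND
  have hNAO : StNAO := nao hLE hNE hND hNSO
  have hEB : StEB := Helper31.HU.EB.eb
  have hBD : StBD := Helper8.HU.bd hEB
  have hWN : StWN := Helper62.HU.WN.wn hFO
  have hKEY : StKEY := Helper76.HV.key hEB
  have hCU : StCU := Helper38.HVCU.cu hNMp hTR
  have hPB : StPB := Helper17.HV.pb hNMp hTR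
  have hEXG : StEXG := Helper76.HV.exg
  have hCP : StCP := Helper76.HV.cp hEXG hLE hLD
  have hPS : StPS := ps hFO hPB
  have hJB : StJB := jb hBD
  have hM : StM := mthm hCP hPS hKEY hJB hCU
  have hMA : StMA := ma hCP hPS hKEY hJB hPB
  have hUU : StUU := Helper48.HU.UU.uu hUD
  have hNU : StNU := Helper68.HV.nu hCF hNMp
  have hSD : StSD := Helper63.HU.sd hLD
  have hRX : StRX := Helper22.HV.RX.rx hWN hKEY
  have hFB : StFB := FBC.fb hBD
  have hTF : StTF := Helper21.HS.tf hTR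
  have hFA : StFA := Helper21.HS.fa hTR
  have hNM : StNM := Helper29.HM.NM.nm hHP hUD
  have hML : StML := Helper31.HM.ML.ml hHP hUD gr'
  have hCH : StCH := Helper34.HM.ch hRefl hLE hLD re hHP hCF
  have hPW : StPW := Helper29.HM.PW.pw hLE hLD re hHP
  obtain ⟨θ, hκθ, hθ, hAt⟩ := exists_bd hOZ hCVO hNAO hCF hκ hF
  have hU := unif_of hRF hUU Helper86.HU.EX.ex hSD
    (Helper86.HU.PF.pf hHP) (Helper86.HU.ME.me hWN hEB hBD) hLE hCF hκ hκθ hAt
  have hL := fun (c ν : Cardinal.{0}) (δ : Ordinal.{0}) (hc : c.IsRegular) (h2c : θ < c)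
    (hcδ : c.ord ≤ δ) (hδc : δ < (succ c).ord) (hreg : HODReg δ) (hδcof : θ < δ.cof)
    (hν : ν.IsRegular) (hνκ : ν < κ) => sc_of hRF hUU hCF hNU (Helper12.HS.rc hHP hLE hLD) hRX
      hFB FBC.fd (FBC.ce hCU hFB) (cx hNMp) Helper8.HS.CA.ca
      (ty Helper8.HS.CA.ca Helper37.HS.cf1 hTF) LS.ls1 YS.ys YD.yd
      (Helper68.HS.XS.xs hFA hTF hEB Helper8.HS.CA.ca) (Helper69.HS.NF.nf hHP) hPS hKEY hJB hPB
      hκ hκθ hAt hc h2c hcδ hδc hreg hδcof hν hνκ
  have hV : Concl κ θ := concl_of hUU hSD hLE hEXG hRX (Helper4.HV.FN.thm_fn hHP) hNU hM hMA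
    hκ hκθ hAt
  exact ⟨θ, hκθ, hθ, fun c hc h => ⟨chain_of hCH hNM hML hUD hκ hκθ hAt hc h,
    conclS_of hκ hκθ hL hU.2 hM hc h⟩, fun hE c hc h => osm_ext hOZ hCVO hPW hE hF hc h,
    hV, fun σ h => conclF_of hκ hκθ hV hM h⟩

theorem fail_of {κ : Cardinal.{0}} (hκ : StronglyCompact κ) (hH : ¬ HODHypothesis) : Fail κ := by
  by_contra hcon
  refine hH (Helper96.HM.hy κ hκ.reg hκ.unc fun α h1 h2 h3 => ?_)
  by_contra h4
  exact hcon ⟨α, h1, h2, h3, h4⟩

theorem sc_or {κ : Cardinal.{0}} (hκ : StronglyCompact κ ∨ Extendible κ) : StronglyCompact κ :=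
  hκ.elim id Extendible.stronglyCompact

theorem supercompact (κ : Cardinal.{0}) (hκ : StronglyCompact κ) (hH : ¬ HODHypothesis) :
    ∃ θ : Cardinal.{0}, (Extendible κ → θ = κ) ∧
      ∀ c : Cardinal.{0}, c.IsRegular → θ < c → ConclS κ θ c := by
  obtain ⟨θ, -, h1, h2, -⟩ := all κ hκ (fail_of hκ hH)
  exact ⟨θ, h1, fun c hc h => (h2 c hc h).2⟩

theorem mitchell (κ : Cardinal.{0}) (hκ : StronglyCompact κ) :
    (HODHypothesis ∧
      ∀ α : Ordinal.{0}, IsSuccLimit α → κ.ord ≤ α → α.cof < κ → HODSing α) ∨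
    ∃ θ : Ordinal.{0}, (Extendible κ → θ = κ.ord) ∧ ∀ c : Cardinal.{0}, c.IsRegular →
      θ < c.ord → OmegaStronglyMeasurable c.ord ∧ MitchellChain κ.ord c.ord := by
  by_cases hF : Fail κ
  · right
    by_cases hE : Extendible κ
    · obtain ⟨θ, -, h1, h2, h3, -⟩ := all κ hκ hF
      refine ⟨κ.ord, fun _ => rfl, fun c hc h => ?_⟩
      have h4 := Cardinal.ord_lt_ord.1 h
      refine ⟨h3 hE c hc h4, (h2 c hc ?_).1⟩
      rw [h1 hE]
      exact h4
    · rcases Pool.Agent.Helper73.HM.main κ hκ with h | ⟨θ, h⟩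
      · obtain ⟨α, h1, h2, h3, h4⟩ := hF
        exact absurd (h.2 α h1 h2 h3) h4
      · exact ⟨θ, fun h' => absurd h' hE, h⟩
  · left
    have h : ∀ α : Ordinal.{0}, IsSuccLimit α → κ.ord ≤ α → α.cof < κ → HODSing α := by
      intro α h1 h2 h3
      by_contra h4
      exact hF ⟨α, h1, h2, h3, h4⟩
    exact ⟨Helper96.HM.hy κ hκ.reg hκ.unc h, h⟩

end Pool.Agent.Helper73.HX
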