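import Pool.Agent.Helper73.HX.SC

/-!
# HX: extendible cardinals are strongly compact
-/

namespace Pool.Agent.Helper73.HX

open Ordinal Cardinal ZFSet Order Pool.Agent.Helper73.HODC Pool.Agent.Helper73.HE
  Pool.Agent.Helper73.HM

section

variable {I : Type} (o : I → Ordinal.{0}) (μ : Ordinal.{0})

/-- the code of a subset of `I` -/
noncomputable def hat (X : Set I) : ZFSet.{0} :=
  ZFSet.sep (fun z => ∃ i ∈ X, z = (o i).toZFSet) μ.toZFSet

theorem mem_hat (ho : ∀ i, o i < μ) {X : Set I} {z : ZFSet.{0}} :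
    z ∈ hat o μ X ↔ ∃ i ∈ X, z = (o i).toZFSet := by
  rw [hat, ZFSet.mem_sep]
  constructor
  · exact fun h => h.2
  · rintro ⟨i, hi, rfl⟩
    exact ⟨mem_toZFSet.2 (ho i), i, hi, rfl⟩

theorem mem_hat' (hinj : Function.Injective o) (ho : ∀ i, o i < μ) {X : Set I} {i : I} :
    (o i).toZFSet ∈ hat o μ X ↔ i ∈ X := by
  rw [mem_hat o μ ho]
  constructor
  · rintro ⟨i', hi', h⟩
    rwa [hinj (toZFSet_inj' h)]
  · intro h
    exact ⟨i, h, rfl⟩

theorem hat_mem_V {γ : Ordinal.{0}} (h : μ < γ) (X : Set I) : hat o μ X ∈ V_ γ := by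
  rw [mem_vonNeumann]
  refine lt_of_le_of_lt (rank_mono (ZFSet.sep_subset ..)) ?_
  rwa [rank_toZFSet]

end

namespace Extendible

variable {κ : Cardinal.{0}}

/-- functional relation with domain contained in `δ` picks few members of a family -/
theorem small_family {S : Type} {r : S → Ordinal.{0}} (hr : Function.Injective r)
    {h : ZFSet.{0}} (hh : ∀ x y, ZFSet.pair x y ∈ h → ∀ x' y', ZFSet.pair x' y' ∈ h →
      x = x' → y = y') {d : Ordinal.{0}} (hd : d < κ.ord) :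
    #{s : S | ∃ ξ < d, ZFSet.pair ξ.toZFSet (r s).toZFSet ∈ h} < κ := by
  refine lt_of_le_of_lt ?_ (Cardinal.lt_ord.1 hd)
  rw [← mk_toType d]
  choose ξ hξ hξ' using fun s : {s : S | ∃ ξ < d, ZFSet.pair ξ.toZFSet (r s).toZFSet ∈ h} => s.2
  refine Cardinal.mk_le_of_injective (f := fun s => ToType.mk ⟨ξ s, hξ s⟩) fun s t hst => ?_
  have h1 : ξ s = ξ t := congrArg Subtype.val (ToType.mk.injective hst)
  have h2 := hh _ _ (hξ' s) _ _ (hξ' t) (by rw [h1])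
  exact Subtype.ext (hr (toZFSet_inj' h2))

theorem stronglyCompact (hE : Extendible κ) : StronglyCompact κ := by
  refine ⟨hE.regular, hE.aleph0_lt, fun I F hne hF => ?_⟩
  classical
  obtain ⟨o, hoinj, hoμ⟩ := exists_idx I
  obtain ⟨r, hrinj, hrlam⟩ := exists_idx (Set I)
  set μ := (#I).ord with hμ
  set lam := (#(Set I)).ord with hlam
  let g : ZFSet.{0} := ZFSet.range
    (fun X : {X : Set I // X ∈ F} => ZFSet.pair (r X.1).toZFSet (hat o μ X.1))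
  have hg : ∀ z, z ∈ g ↔ ∃ X ∈ F, z = ZFSet.pair (r X).toZFSet (hat o μ X) := by
    intro z
    simp only [g]
    rw [ZFSet.mem_range]
    constructor
    · rintro ⟨⟨X, hX⟩, h⟩
      exact ⟨X, hX, h.symm⟩
    · rintro ⟨X, hX, h⟩
      exact ⟨⟨X, hX⟩, h.symm⟩
  obtain ⟨γ, β, j, hγ, hκγ, hb, hj⟩ := hE.limit (max (max μ lam) g.rank)
  have hμγ : μ < γ := lt_of_le_of_lt ((le_max_left _ _).trans (le_max_left _ _)) hb
  have hlamγ : lam < γ := lt_of_le_of_lt ((le_max_right _ _).trans (le_max_left _ _)) hb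
  have hgV : g ∈ V_ γ := mem_vonNeumann.2 (lt_of_le_of_lt (le_max_right _ _) hb)
  have hκV : κ.ord.toZFSet ∈ V_ γ := toZFSet_mem_V hκγ
  have hhV : ∀ X : Set I, hat o μ X ∈ V_ γ := fun X => hat_mem_V o μ hμγ X
  have hκlim : IsSuccLimit κ.ord := hj.κ_lim hγ hκγ
  -- the intersection of the sets `j X`, `X ∈ F`
  have hP : DfnL (fun v => (∀ x y, ZFSet.pair x y ∈ v 0 → ∀ x' y', ZFSet.pair x' y' ∈ v 0 →
      x = x' → y = y') → ∀ δ ∈ v 1, ∃ i ∈ v 2, ∀ x y, ZFSet.pair x y ∈ v 0 → x ∈ δ →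
        ∀ y' z, ZFSet.pair y' z ∈ v 3 → y = y' → i ∈ z) := by
    refine DfnL.imp ?_ ?_
    · refine DfnL.allPair (Q := fun x y v => ∀ x' y', ZFSet.pair x' y' ∈ v 0 →
        x = x' → y = y') 0 ?_
      exact DfnL.allPair (Q := fun x' y' v => v 1 = x' → v 0 = y') 2
        ((DfnL.eq 3 1).imp (DfnL.eq 2 0))
    · refine DfnL.allMem (Q := fun δ v => ∃ i ∈ v 2, ∀ x y, ZFSet.pair x y ∈ v 0 → x ∈ δ →
        ∀ y' z, ZFSet.pair y' z ∈ v 3 → y = y' → i ∈ z) 1 ?_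
      refine DfnL.exMem (Q := fun i v => ∀ x y, ZFSet.pair x y ∈ v 1 → x ∈ v 0 →
        ∀ y' z, ZFSet.pair y' z ∈ v 4 → y = y' → i ∈ z) 3 ?_
      refine DfnL.allPair (Q := fun x y v => x ∈ v 1 →
        ∀ y' z, ZFSet.pair y' z ∈ v 5 → y = y' → v 0 ∈ z) 2 ?_
      refine (DfnL.mem 1 3).imp ?_
      exact DfnL.allPair (Q := fun y' z v => v 0 = y' → v 2 ∈ z) 7
        ((DfnL.eq 2 1).imp (DfnL.mem 4 0))
  have hkey := (hj.trAll hγ hP (as3 κ.ord.toZFSet (hat o μ Set.univ) g)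
    (inV_as3 hκV (hhV _) hgV)).1 (by
      intro h _
      show (∀ x y, ZFSet.pair x y ∈ h → ∀ x' y', ZFSet.pair x' y' ∈ h → x = x' → y = y') →
        ∀ δ ∈ κ.ord.toZFSet, ∃ i ∈ hat o μ Set.univ, ∀ x y, ZFSet.pair x y ∈ h → x ∈ δ →
          ∀ y' z, ZFSet.pair y' z ∈ g → y = y' → i ∈ z
      intro hh δ hδ
      obtain ⟨d, hd, rfl⟩ := mem_toZFSet_iff.1 hδ
      set S : Set (Set I) := {X | (∃ ξ < d, ZFSet.pair ξ.toZFSet (r X).toZFSet ∈ h) ∧ X ∈ F}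
        with hS
      have hSc : #S < κ := by
        refine lt_of_le_of_lt (Cardinal.mk_le_mk_of_subset fun X hX => ?_)
          (small_family hrinj hh hd)
        exact hX.1
      have hSF : ⋂₀ S ∈ F := hF.cardinal_sInter_mem S hSc fun X hX => hX.2
      obtain ⟨i, hi⟩ := hne.nonempty_of_mem hSF
      refine ⟨(o i).toZFSet, (mem_hat' o μ hoinj hoμ).2 (Set.mem_univ _), ?_⟩
      intro x y hxy hx y' z hyz hyy
      obtain ⟨X, hX, h1⟩ := (hg _).1 hyz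
      obtain ⟨rfl, rfl⟩ := pair_inj.1 h1
      obtain ⟨ξ, hξ, rfl⟩ := mem_toZFSet_iff.1 hx
      subst hyy
      exact (mem_hat' o μ hoinj hoμ).2 (hi X ⟨⟨ξ, hξ, hxy⟩, hX⟩))
  have hγβ : γ < β := (hj.lt_jo hγ hκγ).trans (hj.jo_lt_β hκγ)
  have hβ := hj.lim hγ
  set h0 : ZFSet.{0} := gr lam (fun a => j a.toZFSet) with hh0
  have hh0V : h0 ∈ V_ β := by
    have hm : max γ (Emb.jo j lam) < β := max_lt hγβ (hj.jo_lt_β hlamγ)
    have h3 : succ (succ (succ (max γ (Emb.jo j lam)))) < β :=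
      hβ.succ_lt (hβ.succ_lt (hβ.succ_lt hm))
    rw [mem_vonNeumann]
    refine lt_of_le_of_lt ?_ h3
    rw [rank_le_iff]
    intro p hp
    obtain ⟨a, ha, rfl⟩ := mem_gr.1 hp
    have h4 : a ≤ max γ (Emb.jo j lam) := (ha.trans hlamγ).le.trans (le_max_left _ _)
    have h5 : (j a.toZFSet).rank ≤ max γ (Emb.jo j lam) :=
      ((hj.jo_lt hγ (ha.trans hlamγ) hlamγ).1 ha).le.trans (le_max_right _ _)
    rw [ZFSet.pair, rank_pair, rank_pair, rank_singleton, rank_toZFSet, Order.lt_succ_iff]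
    exact max_le (Order.succ_le_succ (Order.succ_le_succ h4))
      (Order.succ_le_succ (max_le (Order.succ_le_succ h4) (Order.succ_le_succ h5)))
  obtain ⟨w, hw, hw'⟩ : ∃ i ∈ j (hat o μ Set.univ), ∀ x y, ZFSet.pair x y ∈ h0 →
      x ∈ lam.toZFSet → ∀ y' z, ZFSet.pair y' z ∈ j g → y = y' → i ∈ z :=
    hkey h0 hh0V (by
      show ∀ x y, ZFSet.pair x y ∈ h0 → ∀ x' y', ZFSet.pair x' y' ∈ h0 → x = x' → y = y'
      intro x y hxy x' y' hxy' hx
      obtain ⟨a, ha, h1⟩ := mem_gr.1 hxy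
      obtain ⟨rfl, rfl⟩ := pair_inj.1 h1
      obtain ⟨b, hb, h2⟩ := mem_gr.1 hxy'
      obtain ⟨rfl, rfl⟩ := pair_inj.1 h2
      rw [toZFSet_inj' hx]) lam.toZFSet (hj.mem_jκ hγ hκγ hlamγ.le)
  have hwF : ∀ X ∈ F, w ∈ j (hat o μ X) := by
    intro X hX
    refine hw' _ _ (mem_gr.2 ⟨r X, hrlam X, rfl⟩) (mem_toZFSet.2 (hrlam X)) _ _
      (hj.pair_mem hγ hgV ((hg _).2 ⟨X, hX, rfl⟩)) rfl
  -- the ultrafilter
  have hsub : ∀ X Y : Set I, X ⊆ Y → w ∈ j (hat o μ X) → w ∈ j (hat o μ Y) := by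
    intro X Y hXY hX
    have hQ : DfnL (fun v => ∀ z ∈ v 0, z ∈ v 1) :=
      DfnL.allMem (Q := fun z v => z ∈ v 1) 0 (DfnL.mem 0 2)
    have h1 : ∀ z ∈ j (hat o μ X), z ∈ j (hat o μ Y) :=
      (hj.tr3 hγ hQ (hhV X) (hhV Y) (hhV Y)).1 (by
        show ∀ z ∈ hat o μ X, z ∈ hat o μ Y
        intro z hz
        obtain ⟨i, hi, rfl⟩ := (mem_hat o μ hoμ).1 hz
        exact (mem_hat' o μ hoinj hoμ).2 (hXY hi))
    exact h1 w hX
  have hcompl : ∀ X : Set I, w ∈ j (hat o μ Xᶜ) ↔ ¬ w ∈ j (hat o μ X) := by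
    intro X
    have hQ : DfnL (fun v => ∀ i ∈ v 2, i ∈ v 0 ↔ ¬ i ∈ v 1) :=
      DfnL.allMem (Q := fun i v => i ∈ v 0 ↔ ¬ i ∈ v 1) 2 ((DfnL.mem 0 1).iff (DfnL.mem 0 2).not)
    have h1 : ∀ i ∈ j (hat o μ Set.univ), i ∈ j (hat o μ Xᶜ) ↔ ¬ i ∈ j (hat o μ X) :=
      (hj.tr3 hγ hQ (hhV _) (hhV _) (hhV _)).1 (by
        show ∀ i ∈ hat o μ Set.univ, i ∈ hat o μ Xᶜ ↔ ¬ i ∈ hat o μ X
        intro z hz
        obtain ⟨i, -, rfl⟩ := (mem_hat o μ hoμ).1 hz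
        rw [mem_hat' o μ hoinj hoμ, mem_hat' o μ hoinj hoμ]
        rfl)
    exact h1 w hw
  have hinter : ∀ S : Set (Set I), #S < κ → (∀ X ∈ S, w ∈ j (hat o μ X)) →
      w ∈ j (hat o μ (⋂₀ S)) := by
    intro S hS hSw
    obtain ⟨q, hq, hq'⟩ := exists_idx S
    set δ := (#S).ord with hδ
    have hδκ : δ < κ.ord := Cardinal.ord_lt_ord.2 hS
    have hδγ : δ < γ := hδκ.trans hκγ
    let h1 : ZFSet.{0} := ZFSet.range (fun s : S => ZFSet.pair (q s).toZFSet (hat o μ s.1))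
    have hmem1 : ∀ z, z ∈ h1 ↔ ∃ s : S, z = ZFSet.pair (q s).toZFSet (hat o μ s.1) := by
      intro z
      simp only [h1]
      rw [ZFSet.mem_range]
      exact ⟨fun ⟨s, hs⟩ => ⟨s, hs.symm⟩, fun ⟨s, hs⟩ => ⟨s, hs.symm⟩⟩
    have h1V : h1 ∈ V_ γ := by
      have hm : max κ.ord μ < γ := max_lt hκγ hμγ
      have h3 : succ (succ (succ (max κ.ord μ))) < γ :=
        hγ.succ_lt (hγ.succ_lt (hγ.succ_lt hm))
      rw [mem_vonNeumann]
      refine lt_of_le_of_lt ?_ h3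
      rw [rank_le_iff]
      intro p hp
      obtain ⟨s, rfl⟩ := (hmem1 _).1 hp
      have h4 : q s ≤ max κ.ord μ := ((hq' s).trans hδκ).le.trans (le_max_left _ _)
      have h5 : (hat o μ s.1).rank ≤ max κ.ord μ := by
        refine le_trans ?_ (le_max_right _ _)
        have := rank_mono (ZFSet.sep_subset .. : hat o μ s.1 ⊆ μ.toZFSet)
        rwa [rank_toZFSet] at this
      rw [ZFSet.pair, rank_pair, rank_pair, rank_singleton, rank_toZFSet, Order.lt_succ_iff]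
      exact max_le (Order.succ_le_succ (Order.succ_le_succ h4))
        (Order.succ_le_succ (max_le (Order.succ_le_succ h4) (Order.succ_le_succ h5)))
    have hR1 : DfnL (fun v => ∀ i ∈ v 1, (∀ x y, ZFSet.pair x y ∈ v 2 → i ∈ y) → i ∈ v 0) := by
      refine DfnL.allMem (Q := fun i v => (∀ x y, ZFSet.pair x y ∈ v 2 → i ∈ y) → i ∈ v 0) 1 ?_
      exact (DfnL.allPair (Q := fun x y v => v 0 ∈ y) 3 (DfnL.mem 2 0)).imp (DfnL.mem 0 1)
    have h2 : ∀ i ∈ j (hat o μ Set.univ), (∀ x y, ZFSet.pair x y ∈ j h1 → i ∈ y) →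
        i ∈ j (hat o μ (⋂₀ S)) :=
      (hj.tr3 hγ hR1 (hhV _) (hhV _) h1V).1 (by
        show ∀ i ∈ hat o μ Set.univ, (∀ x y, ZFSet.pair x y ∈ h1 → i ∈ y) →
          i ∈ hat o μ (⋂₀ S)
        intro z hz h3
        obtain ⟨i, -, rfl⟩ := (mem_hat o μ hoμ).1 hz
        refine (mem_hat' o μ hoinj hoμ).2 fun X hX => ?_
        exact (mem_hat' o μ hoinj hoμ).1 (h3 _ _ ((hmem1 _).2 ⟨⟨X, hX⟩, rfl⟩)))
    refine h2 w hw fun x y hxy => ?_
    have hR2 : DfnL (fun v => ∀ x y, ZFSet.pair x y ∈ v 0 → x ∈ v 1) :=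
      DfnL.allPair (Q := fun x y v => x ∈ v 1) 0 (DfnL.mem 1 3)
    have h3 : ∀ x y, ZFSet.pair x y ∈ j h1 → x ∈ j δ.toZFSet :=
      (hj.tr3 hγ hR2 h1V (toZFSet_mem_V hδγ) h1V).1 (by
        show ∀ x y, ZFSet.pair x y ∈ h1 → x ∈ δ.toZFSet
        intro x y hxy
        obtain ⟨s, hs⟩ := (hmem1 _).1 hxy
        obtain ⟨rfl, rfl⟩ := pair_inj.1 hs
        exact mem_toZFSet.2 (hq' s))
    have h4 := h3 x y hxy
    rw [hj.fix δ hδκ] at h4
    obtain ⟨ξ, hξ, rfl⟩ := mem_toZFSet_iff.1 h4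
    have hξκ := hξ.trans hδκ
    have hξV := toZFSet_mem_V (hξκ.trans hκγ)
    by_cases hs : ∃ s : S, q s = ξ
    · obtain ⟨s, rfl⟩ := hs
      have hR3 : DfnL (fun v => ∀ x y, ZFSet.pair x y ∈ v 0 → x = v 1 → y = v 2) :=
        DfnL.allPair (Q := fun x y v => x = v 1 → y = v 2) 0 ((DfnL.eq 1 3).imp (DfnL.eq 0 4))
      have h5 : ∀ x y, ZFSet.pair x y ∈ j h1 → x = j (q s).toZFSet → y = j (hat o μ s.1) :=
        (hj.tr3 hγ hR3 h1V hξV (hhV _)).1 (by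
          show ∀ x y, ZFSet.pair x y ∈ h1 → x = (q s).toZFSet → y = hat o μ s.1
          intro x y hxy hx
          obtain ⟨t, ht⟩ := (hmem1 _).1 hxy
          obtain ⟨rfl, rfl⟩ := pair_inj.1 ht
          rw [hq (toZFSet_inj' hx)])
      rw [h5 _ _ hxy (by rw [hj.fix _ hξκ])]
      exact hSw s.1 s.2
    · exfalso
      have hR4 : DfnL (fun v => ∀ x y, ZFSet.pair x y ∈ v 0 → x = v 1 → ¬ x = x) :=
        DfnL.allPair (Q := fun x y v => x = v 1 → ¬ x = x) 0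
          ((DfnL.eq 1 3).imp (DfnL.eq 1 1).not)
      have h5 : ∀ x y, ZFSet.pair x y ∈ j h1 → x = j ξ.toZFSet → ¬ x = x :=
        (hj.tr3 hγ hR4 h1V hξV hξV).1 (by
          show ∀ x y, ZFSet.pair x y ∈ h1 → x = ξ.toZFSet → ¬ x = x
          intro x y hxy hx
          obtain ⟨t, ht⟩ := (hmem1 _).1 hxy
          obtain ⟨rfl, rfl⟩ := pair_inj.1 ht
          exact absurd ⟨t, toZFSet_inj' hx⟩ hs)
      exact h5 _ _ hxy (by rw [hj.fix _ hξκ]) rfl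
  let G : Filter I :=
    { sets := {X | w ∈ j (hat o μ X)}
      univ_sets := hw
      sets_of_superset := fun {X Y} hX hXY => hsub X Y hXY hX
      inter_sets := fun {X Y} hX hY => by
        have h1 := hinter {X, Y} (by
          refine lt_of_lt_of_le ?_ hE.aleph0_lt.le
          exact Cardinal.lt_aleph0_iff_set_finite.2 (Set.toFinite _)) (by
            rintro Z (rfl | rfl)
            · exact hX
            · exact hY)
        rwa [Set.sInter_pair] at h1 }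
  refine ⟨Ultrafilter.ofComplNotMemIff G fun X => ?_, ⟨fun S hS hSG => hinter S hS hSG⟩,
    fun X hX => hwF X hX⟩
  show ¬ w ∈ j (hat o μ Xᶜ) ↔ w ∈ j (hat o μ X)
  rw [hcompl, not_not]

end Extendible

end Pool.Agent.Helper73.HX
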