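import Pool.Agent.Helper73.HX.Uni
import Pool.Agent.Helper73.HU.Fin
import Pool.Agent.Helper73.HU.CVO

/-!
# HX: atoms
-/

namespace Pool.Agent.Helper73.HX

open Ordinal Cardinal ZFSet Order Pool.Agent.Helper73.HODC Pool.Agent.Helper73.HE
  Pool.Agent.Helper73.HM Pool.Agent.Helper73.HU

/-- every definable stationary set of ordinals of cofinality less than `κ` below an ordinal of
cofinality greater than `θ` contains an atom -/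
def AtomsH (κ θ : Cardinal.{0}) : Prop :=
  ∀ (τ : Ordinal.{0}) (X : Set Ordinal.{0}), θ < τ.cof → DPs X → Stat X τ →
    (∀ a ∈ X, a.cof < κ) → ∃ A, DPs A ∧ (∀ a ∈ A, a ∈ X ∧ a < τ) ∧ Atom τ A

/-- the failure of the first case of the dichotomy -/
def Fail (κ : Cardinal.{0}) : Prop :=
  ∃ α : Ordinal.{0}, IsSuccLimit α ∧ κ.ord ≤ α ∧ α.cof < κ ∧ ¬ HODSing α

theorem atoms_sc (hCV : StCVO) (hNA : StNAO) {κ κ₀ : Cardinal.{0}} (hκ : StronglyCompact κ)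
    (hkk : κ ≤ κ₀)
    (hα : ∃ α : Ordinal.{0}, IsSuccLimit α ∧ κ.ord ≤ α ∧ α ≤ κ₀.ord ∧ α.cof < κ ∧ ¬ HODSing α) :
    AtomsH κ ((2 : Cardinal.{0}) ^ κ₀) := fun _ _ hτ hX hX' hXc =>
  exists_atom hCV hNA hκ hkk hα hτ hX hX' hXc

theorem dps_cof_eq (hCF : StCF) (ν : Cardinal.{0}) : DPs {a | a.cof = ν} := by
  refine ((hCF (succ ν) 0).and (hCF ν 0).not).congr fun v => ?_
  show (v 0).rank.cof = ν ↔ (v 0).rank.cof < succ ν ∧ ¬ (v 0).rank.cof < ν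
  rw [Order.lt_succ_iff, not_lt]
  exact ⟨fun h => ⟨h.le, h.ge⟩, fun h => le_antisymm h.1 h.2⟩

/-- sequences in the sense of `NoSeqO` are coded by sets -/
theorem noSeqO_of {κ κ₁ ν : Cardinal.{0}} {τ η : Ordinal.{0}} {X : Set Ordinal.{0}}
    (hκτ : κ ≤ τ.cof) (hX : ∀ a ∈ X, a.cof = ν) (hη : η ≤ κ₁.ord)
    (h : ∀ s, OD s → ¬ SeqIn η τ s κ.ord ν.ord) : NoSeqO κ₁ τ X := by
  rintro ⟨S, hS1, hS2, hS3, hS4⟩
  refine h _ (od_relSet hS1 κ₁.ord τ) ⟨le_cof_iff.1 hκτ, fun ξ hξ C hC => ?_,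
    fun ξ hξ a ha h1 => ?_, fun ξ hξ ξ' hξ' a ha h1 h2 => ?_⟩
  · obtain ⟨a, h1, h2, h3⟩ := hS2 ξ (hξ.trans_le hη) C hC
    exact ⟨a, fnSet_relSet.2 ⟨hξ.trans_le hη, h3, hξ.trans_le hη, h3, h1⟩, h2, h3⟩
  · exact cof_eq_iff.1 (hX a (hS3 ξ (hξ.trans_le hη) a (fnSet_relSet.1 h1).2.2.2.2))
  · exact hS4 ξ (hξ.trans_le hη) ξ' (hξ'.trans_le hη) a (fnSet_relSet.1 h1).2.2.2.2
      (fnSet_relSet.1 h2).2.2.2.2

/-- for an extendible cardinal there are no long sequences -/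
theorem noSeq_ext (hOZ : StOZ) (hCV : StCVO) {κ : Cardinal.{0}} (hE : Extendible κ)
    (hF : Fail κ) {ν : Cardinal.{0}} (hν : ν < κ) :
    ∃ κ₁ : Cardinal.{0}, κ₁ ≠ 0 ∧ κ₁ < κ ∧ (2 : Cardinal.{0}) ^ κ₁ < κ ∧
      ∀ (τ : Ordinal.{0}) (X : Set Ordinal.{0}), κ ≤ τ.cof → (∀ a ∈ X, a.cof = ν) →
        NoSeqO κ₁ τ X := by
  obtain ⟨η, hη, h⟩ := uniform hOZ hCV hE hF (Cardinal.ord_lt_ord.2 hν)
  have h1 : η.card < κ := Cardinal.lt_ord.1 hη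
  have h2 : succ η.card < κ := by
    have h3 := hE.two_power_lt h1
    exact lt_of_le_of_lt (Order.succ_le_of_lt (Cardinal.cantor _)) h3
  refine ⟨succ η.card, (Order.succ_ne_bot _), h2, hE.two_power_lt h2, fun τ X hτ hX => ?_⟩
  refine noSeqO_of hτ hX ?_ (fun s hs => h τ s hs)
  exact (Cardinal.lt_ord.2 (Order.lt_succ _)).le

theorem atoms_ext (hOZ : StOZ) (hCV : StCVO) (hNA : StNAO) (hCF : StCF) {κ : Cardinal.{0}}
    (hE : Extendible κ) (hF : Fail κ) : AtomsH κ κ := by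
  classical
  intro τ X hτ hX hX' hXc
  have hunc : ℵ₀ < τ.cof := hE.aleph0_lt.trans hτ
  have hne : (0 : Ordinal.{0}) < κ.ord := by
    rw [← Cardinal.ord_zero]
    exact Cardinal.ord_lt_ord.2 (Cardinal.aleph0_pos.trans hE.aleph0_lt)
  let g : Ordinal.{0} → κ.ord.ToType := fun a =>
    if h : a.cof.ord < κ.ord then ToType.mk ⟨a.cof.ord, h⟩ else ToType.mk ⟨0, hne⟩
  obtain ⟨y, hy⟩ := pg τ κ.ord.ToType X g hunc (by rw [mk_toType, card_ord]; exact hτ) hX'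
  obtain ⟨a₀, ⟨ha₀, hg₀⟩, -, -⟩ := hy _ (club_univ (isSuccLimit_of_cof hunc))
  have hcof : ∀ a ∈ X, g a = y → a.cof = a₀.cof := by
    intro a ha hga
    have h1 : a.cof.ord < κ.ord := Cardinal.ord_lt_ord.2 (hXc a ha)
    have h2 : a₀.cof.ord < κ.ord := Cardinal.ord_lt_ord.2 (hXc a₀ ha₀)
    have h3 := hga.trans hg₀.symm
    simp only [g] at h3
    rw [dif_pos h1, dif_pos h2] at h3
    have h4 := congrArg Subtype.val (ToType.mk.injective h3)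
    exact Cardinal.ord_injective h4
  obtain ⟨κ₁, -, h1, h2, h3⟩ := noSeq_ext hOZ hCV hE hF (hXc a₀ ha₀)
  have hX1 : DPs {a | a ∈ X ∧ a.cof = a₀.cof} := hX.and (dps_cof_eq hCF a₀.cof)
  obtain ⟨A, hA1, hA2, hA3⟩ := hNA κ₁ τ {a | a ∈ X ∧ a.cof = a₀.cof} hunc (h2.trans hτ) hX1
    (hy.mono fun a ha _ => ⟨ha.1, hcof a ha.1 ha.2⟩) (h3 τ _ hτ.le fun a ha => ha.2)
  exact ⟨A, hA1, fun a ha => ⟨(hA2 a ha).1.1, (hA2 a ha).2⟩, hA3⟩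

end Pool.Agent.Helper73.HX
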