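import Pool.Agent.Helper73.HX.Loc

/-!
# HX: satisfaction in levels, stationary sets and cofinality are absolute
-/

namespace Pool.Agent.Helper73.HX

open Ordinal Cardinal ZFSet Order Pool.Agent.Helper73.HODC Pool.Agent.Helper73.HE
  Pool.Agent.Helper73.HM

/-- satisfaction of a fixed formula in `V_a` -/
theorem dfnL_satV (φ : Fm) (c : ℕ) (s : ℕ → ℕ) :
    DfnL (fun v => Sat {z | z ∈ V_ (v c).rank} φ (fun n => v (s n))) := by
  induction φ generalizing c s with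
  | mem i j => exact DfnL.mem (s i) (s j)
  | eq i j => exact DfnL.eq (s i) (s j)
  | neg φ ih => exact (ih c s).not
  | and φ ψ ih1 ih2 => exact (ih1 c s).and (ih2 c s)
  | all φ ih =>
    refine (DfnL.all (Q := fun x v => x.rank < (v c).rank →
      Sat {z | z ∈ V_ (v c).rank} φ (cons x (fun n => v (s n)))) ?_ ?_).congr ?_
    · refine (dfnL_rank_lt 0 (c + 1)).imp ((ih (c + 1) (liftR s)).congr fun v => ?_)
      rw [app_liftR]
    · rintro θ - v hv ⟨x, hx⟩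
      refine ⟨x, ?_, hx⟩
      push Not at hx
      exact mem_vonNeumann.2 (hx.1.trans (mem_vonNeumann.1 (hv c)))
    · intro v
      refine forall_congr' fun x => ?_
      rw [← mem_vonNeumann]
      exact Iff.rfl

/-! ### functions -/

theorem lt_rank_of_fnSet {x : ZFSet.{0}} {a b : Ordinal.{0}} (h : b ∈ fnSet x a) :
    b < x.rank := by
  obtain ⟨u, w, h1, -, rfl⟩ := h
  have h2 : w.rank < (ZFSet.pair u w).rank :=
    (rank_lt_of_mem (ZFSet.mem_pair.2 (Or.inr rfl))).trans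
      (rank_lt_of_mem (ZFSet.mem_pair.2 (Or.inr rfl)))
  exact h2.trans (rank_lt_of_mem h1)

theorem dfnL_rank_zero (k : ℕ) : DfnL (fun v => (v k).rank = 0) := by
  refine (DfnL.allMem (Q := fun _ _ => False) k ((DfnL.eq 0 0).not.congr fun v => by simp)).congr
    fun v => ?_
  constructor
  · intro H
    have : v k = ∅ := (eq_empty _).2 fun z hz => H z hz
    rw [this, rank_empty]
  · intro H z hz
    have := rank_lt_of_mem hz
    rw [H] at this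
    exact not_lt_zero this

theorem dfnL_fn (i j k : ℕ) : DfnL (fun v => fn (v i) (v j).rank = (v k).rank) := by
  have h1 : DfnL (fun v => ∀ d < (v i).rank, d ∈ fnSet (v i) (v j).rank → (v k).rank ≤ d) :=
    DfnL.allLt (Q := fun d v => d ∈ fnSet (v i) (v j).rank → (v k).rank ≤ d) i
      ((dfnL_fnSet (i + 1) (j + 1) 0).imp (dfnL_rank_le (k + 1) 0))
  have h2 : DfnL (fun v => ∀ d < (v i).rank, ¬ d ∈ fnSet (v i) (v j).rank) :=
    DfnL.allLt (Q := fun d v => ¬ d ∈ fnSet (v i) (v j).rank) i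
      (dfnL_fnSet (i + 1) (j + 1) 0).not
  refine (((dfnL_fnSet i j k).and h1).or (h2.and (dfnL_rank_zero k))).congr fun v => ?_
  rw [fn_eq_iff]
  refine or_congr (and_congr_right fun _ => ⟨fun h d hd => h d (lt_rank_of_fnSet hd) hd,
    fun h d _ hd => h d hd⟩) (and_congr_left fun _ => ⟨fun h d hd => h d (lt_rank_of_fnSet hd) hd,
    fun h d _ hd => h d hd⟩)

theorem dfnL_fn_lt (i j k : ℕ) : DfnL (fun v => fn (v i) (v j).rank < (v k).rank) :=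
  (DfnL.exLt (Q := fun c v => fn (v i) (v j).rank = c) k (dfnL_fn (i + 1) (j + 1) 0)).congr
    fun v => ⟨fun ⟨_, h1, h2⟩ => h2 ▸ h1, fun h => ⟨_, h, rfl⟩⟩

/-! ### cofinality -/

/-- there is a cofinal function from `ρ` to `a` -/
def CofW (ρ a : Ordinal.{0}) : Prop :=
  ∃ f : Ordinal.{0} → Ordinal.{0}, (∀ x < ρ, f x < a) ∧ ∀ b < a, ∃ x < ρ, b ≤ f x

theorem dfnL_cofW (i j : ℕ) : DfnL (fun v => CofW (v i).rank (v j).rank) := by
  refine (DfnL.ex (Q := fun z v => (∀ x < (v i).rank, fn z x < (v j).rank) ∧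
    ∀ b < (v j).rank, ∃ x < (v i).rank, ¬ fn z x < b) ?_ ?_).congr fun v => ?_
  · refine (DfnL.allLt (Q := fun x v => fn (v 0) x < (v (j + 1)).rank) (i + 1)
      (dfnL_fn_lt 1 0 (j + 2))).and ?_
    refine DfnL.allLt (Q := fun b v => ∃ x < (v (i + 1)).rank, ¬ fn (v 0) x < b) (j + 1) ?_
    exact DfnL.exLt (Q := fun x v => ¬ fn (v 1) x < (v 0).rank) (i + 2) (dfnL_fn_lt 2 0 1).not
  · rintro θ hθ v hv ⟨z, h1, h2⟩
    obtain ⟨w, hw, hw'⟩ := exists_fn (fn z) (v i).rank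
    refine ⟨w, ?_, fun x hx => by rw [hw x hx]; exact h1 x hx, fun b hb => ?_⟩
    · rw [mem_vonNeumann]
      refine lt_of_le_of_lt (hw' (max (v i).rank (v j).rank) (le_max_left _ _)
        fun x hx => (h1 x hx).trans_le (le_max_right _ _)) ?_
      have h3 : max (v i).rank (v j).rank < θ :=
        max_lt (mem_vonNeumann.1 (hv i)) (mem_vonNeumann.1 (hv j))
      have h4 := lim_succ hθ (lim_succ hθ h3)
      rwa [add_assoc, one_add_one_eq_two] at h4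
    · obtain ⟨x, hx, h3⟩ := h2 b hb
      exact ⟨x, hx, by rw [hw x hx]; exact h3⟩
  · constructor
    · rintro ⟨z, h1, h2⟩
      refine ⟨fn z, h1, fun b hb => ?_⟩
      obtain ⟨x, hx, h3⟩ := h2 b hb
      exact ⟨x, hx, not_lt.1 h3⟩
    · rintro ⟨f, h1, h2⟩
      obtain ⟨w, hw, -⟩ := exists_fn f (v i).rank
      refine ⟨w, fun x hx => by rw [hw x hx]; exact h1 x hx, fun b hb => ?_⟩
      obtain ⟨x, hx, h3⟩ := h2 b hb
      exact ⟨x, hx, by rw [hw x hx]; exact not_lt.2 h3⟩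

theorem cofW_cof (a : Ordinal.{0}) : CofW a.cof.ord a := by
  have h1 : Order.cof (Set.Iio a) = Cardinal.lift.{1} a.cof := by
    rw [Ordinal.cof_Iio, ← lift_cof]
  obtain ⟨s, hs, hs'⟩ := Order.exists_cof_eq (Set.Iio a)
  rw [h1] at hs'
  have h2 : Cardinal.mk (Set.Iio a.cof.ord) = Cardinal.lift.{1} a.cof := by
    rw [Cardinal.mk_Iio_ordinal, card_ord]
  obtain ⟨e⟩ := Cardinal.eq.1 (h2.trans hs'.symm)
  classical
  obtain ⟨f, hf⟩ : ∃ f : Ordinal.{0} → Ordinal.{0}, ∀ ξ (hξ : ξ < a.cof.ord),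
      f ξ = (e ⟨ξ, hξ⟩).1.1 :=
    ⟨fun ξ => if hξ : ξ < a.cof.ord then (e ⟨ξ, hξ⟩).1.1 else 0, fun ξ hξ => dif_pos hξ⟩
  refine ⟨f, fun ξ hξ => ?_, fun b hb => ?_⟩
  · rw [hf ξ hξ]
    exact (e ⟨ξ, hξ⟩).1.2
  · obtain ⟨c, hc, hbc⟩ := hs ⟨b, hb⟩
    refine ⟨(e.symm ⟨c, hc⟩).1, (e.symm ⟨c, hc⟩).2, ?_⟩
    rw [hf _ (e.symm ⟨c, hc⟩).2]
    have h3 : e ⟨(e.symm ⟨c, hc⟩).1, (e.symm ⟨c, hc⟩).2⟩ = ⟨c, hc⟩ := e.apply_symm_apply _
    rw [h3]
    exact hbc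

theorem card_of_cofW {ρ a : Ordinal.{0}} (h : CofW ρ a) : a.cof ≤ ρ.card := by
  obtain ⟨f, h1, h2⟩ := h
  have hcof : IsCofinal (Set.range (fun ξ : Set.Iio ρ => (⟨f ξ.1, h1 ξ.1 ξ.2⟩ : Set.Iio a))) := by
    intro b
    obtain ⟨ξ, hξ, hbc⟩ := h2 b.1 b.2
    exact ⟨_, ⟨⟨ξ, hξ⟩, rfl⟩, hbc⟩
  have h3 : Order.cof (Set.Iio a) ≤ Cardinal.mk (Set.Iio ρ) :=
    (Order.cof_le hcof).trans Cardinal.mk_range_le
  rwa [Ordinal.cof_Iio, ← lift_cof, Cardinal.mk_Iio_ordinal, Cardinal.lift_le] at h3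

theorem le_cof_iff {κ : Cardinal.{0}} {τ : Ordinal.{0}} :
    κ ≤ τ.cof ↔ ∀ ρ < κ.ord, ¬ CofW ρ τ := by
  constructor
  · intro h ρ hρ hc
    exact absurd (h.trans (card_of_cofW hc)) (not_le.2 (Cardinal.lt_ord.1 hρ))
  · intro h
    by_contra hcon
    exact h _ (Cardinal.ord_lt_ord.2 (not_le.1 hcon)) (cofW_cof τ)

theorem cof_eq_iff {ν : Cardinal.{0}} {a : Ordinal.{0}} :
    a.cof = ν ↔ CofW ν.ord a ∧ ∀ ρ < ν.ord, ¬ CofW ρ a := by
  rw [← le_cof_iff]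
  constructor
  · rintro rfl
    exact ⟨cofW_cof a, le_rfl⟩
  · rintro ⟨h1, h2⟩
    have h3 := card_of_cofW h1
    rw [card_ord] at h3
    exact le_antisymm h3 h2

/-! ### stationary sets -/

theorem club_congr {C D : Set Ordinal.{0}} {τ : Ordinal.{0}} (h : ∀ a < τ, a ∈ C ↔ a ∈ D)
    (hC : Club C τ) : Club D τ := by
  obtain ⟨h1, h2⟩ := hC
  have h3 : ∀ σ ≤ τ, UnbIn D σ → UnbIn C σ := by
    intro σ hσ hu a ha
    obtain ⟨b, hb, hab, hbσ⟩ := hu a ha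
    exact ⟨b, (h b (hbσ.trans_le hσ)).2 hb, hab, hbσ⟩
  refine ⟨fun a ha => ?_, fun a ha ha0 hu => (h a ha).1 (h2 a ha ha0 (h3 a ha.le hu))⟩
  obtain ⟨b, hb, hab, hbσ⟩ := h1 a ha
  exact ⟨b, (h b hbσ).1 hb, hab, hbσ⟩

theorem dfnL_unb (i j : ℕ) : DfnL (fun v => UnbIn (st (v i)) (v j).rank) := by
  refine (DfnL.allLt (Q := fun a v => ∃ b < (v j).rank, b ∈ st (v i) ∧ a < b) j ?_).congr
    fun v => ?_
  · refine DfnL.exLt (Q := fun b v => b ∈ st (v (i + 1)) ∧ (v 0).rank < b) (j + 1) ?_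
    exact (dfnL_st 0 (i + 2)).and (dfnL_rank_lt 1 0)
  · refine forall₂_congr fun a _ => ?_
    constructor
    · rintro ⟨b, h1, h2, h3⟩
      exact ⟨b, h2, h3, h1⟩
    · rintro ⟨b, h2, h3, h1⟩
      exact ⟨b, h1, h2, h3⟩

theorem dfnL_club (i j : ℕ) : DfnL (fun v => Club (st (v i)) (v j).rank) := by
  refine (dfnL_unb i j).and ?_
  refine DfnL.allLt (Q := fun a v => a ≠ 0 → UnbIn (st (v i)) a → a ∈ st (v i)) j ?_
  exact (dfnL_rank_zero 0).not.imp ((dfnL_unb (i + 1) 0).imp (dfnL_st 0 (i + 1)))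

theorem DfnL.stat {Q : Ordinal.{0} → (ℕ → ZFSet.{0}) → Prop} (j : ℕ)
    (h : DfnL (fun v => Q (v 0).rank (fun n => v (n + 1)))) :
    DfnL (fun v => Stat {a | Q a v} (v j).rank) := by
  refine (DfnL.all (Q := fun z v => Club (st z) (v j).rank →
    ∃ a < (v j).rank, a ∈ st z ∧ Q a v) ?_ ?_).congr fun v => ?_
  · refine (dfnL_club 0 (j + 1)).imp ?_
    refine DfnL.exLt (Q := fun a v => a ∈ st (v 0) ∧ Q a (fun n => v (n + 1))) (j + 1) ?_
    exact (dfnL_st 0 1).and (h.rename (fun n => if n = 0 then 0 else n + 1))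
  · rintro θ - v hv ⟨z, hz⟩
    push Not at hz
    have h1 : ∀ a < (v j).rank, a ∈ st z ↔ a ∈ st (ordSet (v j).rank (st z)) := by
      intro a ha
      rw [mem_st_ordSet]
      exact ⟨fun h => ⟨ha, h⟩, fun h => h.2⟩
    refine ⟨ordSet (v j).rank (st z), ?_, ?_⟩
    · rw [mem_vonNeumann]
      refine lt_of_le_of_lt ?_ (mem_vonNeumann.1 (hv j))
      refine (rank_mono (ordSet_sub _ _)).trans ?_
      rw [rank_toZFSet]
    · push Not
      refine ⟨club_congr h1 hz.1, fun a ha h2 => hz.2 a ha ((h1 a ha).2 h2)⟩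
  · constructor
    · intro H C hC
      obtain ⟨z, hz⟩ := exists_st C (v j).rank
      have h1 : ∀ a < (v j).rank, a ∈ C ↔ a ∈ st z := by
        intro a ha
        rw [hz]
        exact ⟨fun h => ⟨h, ha⟩, fun h => h.1⟩
      obtain ⟨a, ha, h2, h3⟩ := H z (club_congr h1 hC)
      exact ⟨a, h3, (h1 a ha).2 h2, ha⟩
    · intro H z hz
      obtain ⟨a, h1, h2, h3⟩ := H _ hz
      exact ⟨a, h3, h2, h1⟩

end Pool.Agent.Helper73.HX
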