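import Pool.Agent.Helper73.HX.Defs
import Pool.Agent.Helper73.HX.Loc2

/-!
# HX: elementary embeddings between levels
-/

namespace Pool.Agent.Helper73.HX

open Ordinal Cardinal ZFSet Order Pool.Agent.Helper73.HODC Pool.Agent.Helper73.HE
  Pool.Agent.Helper73.HM

theorem exists_idx (S : Type) : ∃ r : S → Ordinal.{0}, Function.Injective r ∧
    ∀ s, r s < (#S).ord := by
  obtain ⟨e⟩ := Cardinal.eq.1 (show #S = #(#S).ord.ToType by rw [mk_toType, card_ord])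
  refine ⟨fun s => (ToType.mk.symm (e s)).1, fun s t h => ?_, fun s => (ToType.mk.symm (e s)).2⟩
  exact e.injective (ToType.mk.symm.injective (Subtype.ext h))

theorem exists_limit (a : Ordinal.{0}) : ∃ γ : Ordinal.{0}, IsSuccLimit γ ∧ a < γ :=
  ⟨a + ω, isSuccLimit_add a isSuccLimit_omega0, lt_add_of_pos_right a omega0_pos⟩

theorem mem_toZFSet {a b : Ordinal.{0}} : a.toZFSet ∈ b.toZFSet ↔ a < b := by
  rw [mem_toZFSet_iff]
  constructor
  · rintro ⟨c, hc, h⟩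
    have h1 := congrArg rank h
    rw [rank_toZFSet, rank_toZFSet] at h1
    rwa [← h1]
  · intro h
    exact ⟨a, h, rfl⟩

theorem toZFSet_inj' {a b : Ordinal.{0}} (h : a.toZFSet = b.toZFSet) : a = b := by
  have h1 := congrArg rank h
  rwa [rank_toZFSet, rank_toZFSet] at h1

theorem dfnL_trans (i : ℕ) : DfnL (fun v => (v i).IsTransitive) := by
  refine (DfnL.allMem (Q := fun x v => ∀ y ∈ x, y ∈ v i) i ?_).congr fun v => ?_
  · exact DfnL.allMem (Q := fun y v => y ∈ v (i + 1)) 0 (DfnL.mem 0 (i + 2))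
  · constructor
    · intro H x hx y hy
      exact H x hx y hy
    · intro H x hx y hy
      exact H x hx hy

theorem dfnL_isOrd (i : ℕ) : DfnL (fun v => v i = (v i).rank.toZFSet) :=
  ((dfnL_trans i).and (DfnL.allMem (Q := fun y _ => y.IsTransitive) i
    (dfnL_trans 0))).congr fun v => (eq_rank_toZFSet_iff (v i)).symm

/-- assignments with three values -/
noncomputable def as3 (x y z : ZFSet.{0}) : ℕ → ZFSet.{0} := cons x (cons y (fun _ => z))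

theorem inV_as3 {θ : Ordinal.{0}} {x y z : ZFSet.{0}} (hx : x ∈ V_ θ) (hy : y ∈ V_ θ)
    (hz : z ∈ V_ θ) : InV θ (as3 x y z) := by
  intro n
  match n with
  | 0 => exact hx
  | 1 => exact hy
  | n + 2 => exact hz

namespace Emb

variable {γ β κ : Ordinal.{0}} {j : ZFSet.{0} → ZFSet.{0}}

theorem lim (h : Emb γ β κ j) (hγ : IsSuccLimit γ) : IsSuccLimit β := by
  have h0 : (∅ : ZFSet.{0}) ∈ V_ γ := by
    rw [mem_vonNeumann, rank_empty]
    exact hγ.bot_lt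
  have h1 := (h.elem (.all (.neg (.all (.neg (.mem 1 0))))) (fun _ => ∅) fun _ => h0).1 (by
    simp only [Sat, Set.mem_ofPred_eq]
    intro x hx hcon
    exact hcon {x} (singleton_mem_V hγ hx) (mem_singleton.2 rfl))
  simp only [Sat, Set.mem_ofPred_eq] at h1
  have hβ : 0 < β := lt_of_le_of_lt zero_le (mem_vonNeumann.1 (h.maps _ h0))
  refine ⟨by rw [isMin_iff_eq_bot]; exact hβ.ne', ?_⟩
  by_contra hcon
  rw [Order.not_isSuccPrelimit_iff_succ_eq] at hcon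
  obtain ⟨δ, -, hδ⟩ := hcon
  have hV : V_ δ ∈ V_ β := by
    rw [mem_vonNeumann, rank_vonNeumann, ← hδ]
    exact lt_succ δ
  refine h1 (V_ δ) hV fun y hy hmem => ?_
  have h2 : δ < y.rank := by
    have h3 : (V_ δ).rank < y.rank := rank_lt_of_mem hmem
    rwa [rank_vonNeumann] at h3
  rw [mem_vonNeumann, ← hδ, Order.lt_succ_iff] at hy
  exact absurd h2 (not_lt.2 hy)

theorem tr (h : Emb γ β κ j) (hγ : IsSuccLimit γ) {P : (ℕ → ZFSet.{0}) → Prop} (hP : DfnL P)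
    (v : ℕ → ZFSet.{0}) (hv : InV γ v) : P v ↔ P (fun n => j (v n)) :=
  hP.transfer hγ (h.lim hγ) h.maps h.elem v hv

theorem tr3 (h : Emb γ β κ j) (hγ : IsSuccLimit γ) {P : (ℕ → ZFSet.{0}) → Prop} (hP : DfnL P)
    {x y z : ZFSet.{0}} (hx : x ∈ V_ γ) (hy : y ∈ V_ γ) (hz : z ∈ V_ γ) :
    P (as3 x y z) ↔ P (as3 (j x) (j y) (j z)) := by
  have h1 := h.tr hγ hP (as3 x y z) (inV_as3 hx hy hz)
  have h2 : (fun n => j (as3 x y z n)) = as3 (j x) (j y) (j z) := by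
    funext n
    match n with
    | 0 => rfl
    | 1 => rfl
    | n + 2 => rfl
  rwa [h2] at h1

theorem mem_iff (h : Emb γ β κ j) (hγ : IsSuccLimit γ) {x y : ZFSet.{0}} (hx : x ∈ V_ γ)
    (hy : y ∈ V_ γ) : x ∈ y ↔ j x ∈ j y :=
  h.tr3 hγ (DfnL.mem 0 1) hx hy hy

theorem eq_iff (h : Emb γ β κ j) (hγ : IsSuccLimit γ) {x y : ZFSet.{0}} (hx : x ∈ V_ γ)
    (hy : y ∈ V_ γ) : x = y ↔ j x = j y :=
  h.tr3 hγ (DfnL.eq 0 1) hx hy hy

theorem pair (h : Emb γ β κ j) (hγ : IsSuccLimit γ) {x y : ZFSet.{0}} (hx : x ∈ V_ γ)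
    (hy : y ∈ V_ γ) : j (ZFSet.pair x y) = ZFSet.pair (j x) (j y) :=
  (h.tr3 hγ (dfnL_pair 0 1 2) (pair_mem_V hγ hx hy) hx hy).1 rfl

theorem pair_mem (h : Emb γ β κ j) (hγ : IsSuccLimit γ) {x y z : ZFSet.{0}}
    (hz : z ∈ V_ γ) (hp : ZFSet.pair x y ∈ z) : ZFSet.pair (j x) (j y) ∈ j z := by
  have h1 := mem_V_of_mem hp hz
  obtain ⟨hx, hy⟩ := mem_V_of_pair h1
  rw [← h.pair hγ hx hy]
  exact (h.mem_iff hγ h1 hz).1 hp

theorem ord (h : Emb γ β κ j) (hγ : IsSuccLimit γ) {a : Ordinal.{0}} (ha : a < γ) :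
    j a.toZFSet = (j a.toZFSet).rank.toZFSet :=
  (h.tr3 hγ (dfnL_isOrd 0) (toZFSet_mem_V ha) (toZFSet_mem_V ha) (toZFSet_mem_V ha)).1
    (by show a.toZFSet = a.toZFSet.rank.toZFSet; rw [rank_toZFSet])

/-- the value of `j` at an ordinal -/
noncomputable def jo (j : ZFSet.{0} → ZFSet.{0}) (a : Ordinal.{0}) : Ordinal.{0} :=
  (j a.toZFSet).rank

theorem jo_lt (h : Emb γ β κ j) (hγ : IsSuccLimit γ) {a b : Ordinal.{0}} (ha : a < γ)
    (hb : b < γ) : a < b ↔ jo j a < jo j b := by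
  rw [← mem_toZFSet, h.mem_iff hγ (toZFSet_mem_V ha) (toZFSet_mem_V hb), h.ord hγ ha, h.ord hγ hb,
    mem_toZFSet]
  rfl

theorem jo_fix (h : Emb γ β κ j) {a : Ordinal.{0}} (ha : a < κ) : jo j a = a := by
  rw [jo, h.fix a ha, rank_toZFSet]

theorem lt_jo (h : Emb γ β κ j) (hγ : IsSuccLimit γ) (hκ : κ < γ) : γ < jo j κ := by
  have h1 := h.crit
  rwa [h.ord hγ hκ, mem_toZFSet] at h1

theorem mem_jκ (h : Emb γ β κ j) (hγ : IsSuccLimit γ) (hκ : κ < γ) {a : Ordinal.{0}}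
    (ha : a ≤ γ) : a.toZFSet ∈ j κ.toZFSet := by
  rw [h.ord hγ hκ, mem_toZFSet]
  exact ha.trans_lt (h.lt_jo hγ hκ)

theorem jo_lt_β (h : Emb γ β κ j) {a : Ordinal.{0}} (ha : a < γ) :
    jo j a < β := mem_vonNeumann.1 (h.maps _ (toZFSet_mem_V ha))

/-- `κ` is a limit ordinal -/
theorem κ_lim (h : Emb γ β κ j) (hγ : IsSuccLimit γ) (hκ : κ < γ) : IsSuccLimit κ := by
  refine ⟨?_, ?_⟩
  · rw [isMin_iff_eq_bot]
    rintro rfl
    have h1 : jo j ⊥ = 0 := by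
      have h2 := (h.tr3 hγ (dfnL_rank_zero 0) (toZFSet_mem_V hκ) (toZFSet_mem_V hκ)
        (toZFSet_mem_V hκ)).1 (by show (⊥ : Ordinal.{0}).toZFSet.rank = 0; rw [rank_toZFSet]; rfl)
      exact h2
    have h3 := h.lt_jo hγ hκ
    rw [h1] at h3
    exact not_lt_zero h3
  · by_contra hcon
    rw [Order.not_isSuccPrelimit_iff_succ_eq] at hcon
    obtain ⟨a, -, ha⟩ := hcon
    have haκ : a < κ := by rw [← ha]; exact lt_succ a
    have haγ := haκ.trans hκ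
    have hP : DfnL (fun v => ∀ x ∈ v 0, x ∈ v 1 ∨ x = v 1) :=
      DfnL.allMem (Q := fun x v => x ∈ v 1 ∨ x = v 1) 0 ((DfnL.mem 0 2).or (DfnL.eq 0 2))
    have h1 : ∀ x ∈ j κ.toZFSet, x ∈ j a.toZFSet ∨ x = j a.toZFSet :=
      (h.tr3 hγ hP (toZFSet_mem_V hκ) (toZFSet_mem_V haγ) (toZFSet_mem_V haγ)).1 (by
        show ∀ x ∈ κ.toZFSet, x ∈ a.toZFSet ∨ x = a.toZFSet
        intro x hx
        obtain ⟨b, hb, rfl⟩ := mem_toZFSet_iff.1 hx
        rw [← ha, Order.lt_succ_iff] at hb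
        rcases hb.lt_or_eq with h2 | h2
        · exact Or.inl (mem_toZFSet.2 h2)
        · exact Or.inr (by rw [h2]))
    rw [h.fix a haκ] at h1
    rcases h1 _ h.crit with h2 | h2
    · exact absurd (mem_toZFSet.1 h2) (not_lt.2 haγ.le)
    · exact absurd (toZFSet_inj' h2) haγ.ne'

end Emb

end Pool.Agent.Helper73.HX
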