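import Pool.Agent.Helper73.HX.Atoms
import Pool.Agent.Helper73.HM.Fin
import Pool.Agent.Helper73.HV.Fin
import Pool.Agent.Helper36.HS.Fin

/-!
# HX: assembly
-/

namespace Pool.Agent.Helper73.HX

open Ordinal Cardinal ZFSet Order Pool.Agent.Helper73.HODC Pool.Agent.Helper73.HE
open Pool.Agent.Helper73.HM Pool.Agent.Helper73.HU Pool.Agent.Helper73.HV
open Pool.Agent.Helper36.HS

/-! ### Mitchell order -/

theorem chain_of (hCH : StCH) (hNM : StNM) (hML : StML) (hUD : StUD) {κ θ : Cardinal.{0}}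
    (hκ : StronglyCompact κ) (hκθ : κ ≤ θ) (hAt : AtomsH κ θ) {c : Cardinal.{0}}
    (hc : c.IsRegular) (hθ : θ < c) : MitchellChain κ.ord c.ord := by
  have hkc : κ ≤ c := hκθ.trans hθ.le
  have hunc : ℵ₀ < c := lt_of_lt_of_le hκ.unc hkc
  obtain ⟨A, hA, hA'⟩ := hCH κ c hκ hc hkc fun X hX hXs hXc =>
    hAt c.ord X (by rw [hc.cof_ord]; exact hθ) hX hXs fun a ha => (hXc a ha).2
  have hnm : ∀ ξ < κ.ord, HODNormal c.ord (UA c.ord (A ξ)) := fun ξ hξ =>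
    hNM c (A ξ) hc hunc (DPr.sec hA ξ) (hA' ξ hξ).1 (hA' ξ hξ).2.1
  refine ⟨fun ξ => UA c.ord (A ξ), ?_, hnm, ?_⟩
  · refine gr' κ.ord _ ?_ fun ξ hξ => (hnm ξ hξ).hod
    have h7 : DP (fun v => v 1 = UA (v 0).rank (A (v 2).rank)) :=
      (hUD A hA).rename (fun n => if n = 0 then 1 else if n = 1 then 0 else n)
    exact dp_subst_at (Q := fun x v => v 0 = UA x (A (v 1).rank)) h7 c.ord
  · intro ξ ζ hξ hζ
    refine hML c (A ξ) (A ζ) hc hunc (DPr.sec hA ξ) (DPr.sec hA ζ) (hA' ξ (hξ.trans hζ)).1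
      (hA' ζ hζ).1 (hA' ξ (hξ.trans hζ)).2.1 (hA' ζ hζ).2.1 fun σ hσ => ?_
    obtain ⟨h8, -, h9⟩ := (hA' ζ hζ).2.2 σ hσ
    exact ⟨h8, h9 ξ hξ⟩

/-- omega-strong measurability above an extendible cardinal -/
theorem osm_ext (hOZ : StOZ) (hCV : StCVO) (hPW : StPW) {κ : Cardinal.{0}} (hE : Extendible κ)
    (hF : Fail κ) {c : Cardinal.{0}} (hc : c.IsRegular) (hκc : κ < c) :
    OmegaStronglyMeasurable c.ord := by
  obtain ⟨κ₁, h0, h1, h2, h3⟩ := noSeq_ext hOZ hCV hE hF hE.aleph0_lt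
  refine ⟨κ₁, h0, Cardinal.ord_lt_ord.2 (h1.trans hκc), hPW κ₁ c (h2.trans hκc), ?_⟩
  rintro ⟨S, hS1, hS2, hS3, hS4, hS5⟩
  refine h3 c.ord {a | a.cof = ℵ₀} (by rw [hc.cof_ord]; exact hκc.le) (fun a ha => ha)
    ⟨S, odRel_of_hod hS5, hS1, fun ξ hξ a ha => (hS2 ξ hξ a ha).2, hS4⟩

/-! ### uniform ultrafilters -/

theorem unif_of (hRF : StRF) (hUU : StUU) (hEX : StEX)
    (hSD : StSD) (hPF : StPF) (hME : StME) (hLE : StLE) (hCF : StCF) {κ θ : Cardinal.{0}}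
    (hκ : StronglyCompact κ) (hκθ : κ ≤ θ) (hAt : AtomsH κ θ) :
    (∀ τ, θ < τ.cof → ∃ U, HODUnif τ τ.cof U) ∧
    (∀ τ τ', HODReg τ → HODNext τ τ' → θ < τ'.cof → ∃ U, HODUnif τ τ'.cof U) := by
  constructor
  · intro τ hτ
    have hunc : ℵ₀ < τ.cof := hκ.unc.trans_le (hκθ.trans hτ.le)
    obtain ⟨A, hA, hA1, hA2⟩ := hAt τ _ hτ dps_cof_omega
      (stat_cof_omega hunc) (fun a ha => by rw [Set.mem_ofPred_eq] at ha; rw [ha]; exact hκ.unc)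
    exact ⟨_, hUU τ A hunc hA (fun a ha => (hA1 a ha).2) hA2⟩
  · intro τ τ' hτr hτ' hcof
    have hkc : κ ≤ τ'.cof := hκθ.trans hcof.le
    have hunc : ℵ₀ < τ'.cof := hκ.unc.trans_le hkc
    have hatom : ∃ A, DPs A ∧ (∀ a ∈ A, (ℵ₀ ≤ a.cof ∧ a.cof ≠ τ.cof) ∧ a < τ') ∧ Atom τ' A := by
      by_cases hc : τ.cof = ℵ₀
      · have hs : Stat {a | ℵ₀ < a.cof ∧ a.cof < κ} τ' := by
          refine (hRF κ τ' hκ hkc Unit (by simpa using Cardinal.one_lt_aleph0.trans hκ.unc)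
            (fun _ => {a | a.cof = ℵ₀}) (fun _ => stat_cof_omega hunc) (fun _ a ha => by
              rw [Set.mem_ofPred_eq] at ha; rw [ha]; exact hκ.unc)).mono fun a ha _ =>
                ⟨ha.1, ha.2.1⟩
        obtain ⟨A, hA, hA1, hA2⟩ := hAt τ' _ hcof (dps_cof_mid hCF κ) hs
          (fun a ha => ha.2)
        refine ⟨A, hA, fun a ha => ⟨⟨(hA1 a ha).1.1.le, ?_⟩, (hA1 a ha).2⟩, hA2⟩
        rw [hc]
        exact (hA1 a ha).1.1.ne'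
      · obtain ⟨A, hA, hA1, hA2⟩ := hAt τ' _ hcof dps_cof_omega
          (stat_cof_omega hunc) (fun a ha => by rw [Set.mem_ofPred_eq] at ha; rw [ha]; exact hκ.unc)
        refine ⟨A, hA, fun a ha => ⟨⟨?_, ?_⟩, (hA1 a ha).2⟩, hA2⟩
        · exact le_of_eq (hA1 a ha).1.symm
        · have h1 : a.cof = ℵ₀ := (hA1 a ha).1
          rw [h1]
          exact fun h => hc h.symm
    obtain ⟨A, hA, hA1, hA2⟩ := hatom
    have hA3 : ∀ a ∈ A, a < τ' := fun a ha => (hA1 a ha).2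
    let C : Ordinal.{0} → Ordinal.{0} → Prop := fun a b =>
      ∃ x, LeastOD τ' (SmallCof τ a) x ∧ b ∈ st x
    have hC : DP (fun v => C (v 0).rank (v 1).rank) := hSD τ τ'
    have hx : ∀ a ∈ A, ∃ x, LeastOD τ' (SmallCof τ a) x := by
      intro a ha
      refine hLE.2 τ' _ (hEX τ τ' a hτr hτ' ?_ (hA3 a ha) (hA1 a ha).1.2)
      exact Ordinal.one_lt_cof_iff.1 (Cardinal.one_lt_aleph0.trans_le (hA1 a ha).1.1)
    have hCx : ∀ a ∈ A, ∃ x, SmallCof τ a x ∧ ∀ b, C a b ↔ b ∈ st x := by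
      intro a ha
      obtain ⟨x, hx⟩ := hx a ha
      refine ⟨x, hx.1.2.2, fun b => ⟨?_, fun h => ⟨x, hx, h⟩⟩⟩
      rintro ⟨y, hy, hb⟩
      rwa [hLE.1 _ _ _ _ hy hx] at hb
    obtain ⟨φ, hφ, hφ1, hφ2⟩ := hME τ τ' A C hunc hτr hτ'.2.1 hτ'.1 hA hA3 hA2 hC
      (fun a ha β hβ => by
        obtain ⟨x, hx, hb⟩ := hCx a ha
        obtain ⟨b, hb1, hb2, hb3⟩ := hx.2.1 β hβ
        exact ⟨b, (hb b).2 hb1, hb2.le, hb3⟩)
      (fun a ha => by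
        obtain ⟨x, hx, hb⟩ := hCx a ha
        have : {b | C a b} = st x := Set.ext hb
        rw [this]
        exact hx.2.2)
    have hU := hUU τ' A hunc hA hA3 hA2
    have hmem : ∀ T : Set Ordinal.{0}, DPs T → ¬ Stat {a | a ∈ A ∧ a ∉ T} τ' →
        ordSet τ' T ∈ UA τ' A := by
      intro T hT h
      rw [UA, ZFSet.mem_sep]
      refine ⟨mem_hodPow.2 ⟨ordSet_sub _ _, od_ordSet hT _⟩, fun h' => h (h'.mono ?_)⟩
      intro a ha hac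
      exact ⟨ha.1, fun h1 => ha.2 (mem_st_ordSet.2 ⟨hac, h1⟩)⟩
    have hφd : ∀ x : Ordinal.{0}, DPs {a | φ a < x} := by
      intro x
      refine (DP.exO (Q := fun b v => φ (v 0).rank = b ∧ b < x) ?_).congr fun v => ?_
      · exact (hφ.rename (fun n => if n = 0 then 1 else 0)).and (DP.rank_lt_ord 0 x)
      · constructor
        · intro h
          exact ⟨_, rfl, h⟩
        · rintro ⟨b, h1, h2⟩
          show φ (v 0).rank < x
          rw [h1]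
          exact h2
    refine hPF τ τ' τ'.cof (UA τ' A) φ hU hunc.le hτr.1 hφ ?_ ?_
    · refine hmem _ (hφd τ) fun h => ?_
      obtain ⟨a, ha, -, hac⟩ := h _ (club_univ (isSuccLimit_of_cof hunc))
      exact ha.2 (hφ1 a ha.1)
    · intro i hi
      refine hmem _ ?_ (hφ2 i hi)
      exact (DP.not (hφd i)).congr fun v => (not_lt (a := φ (v 0).rank) (b := i)).symm

/-! ### fine ultrafilters -/

theorem concl_of (hUU : StUU) (hSD : StSD) (hLE : StLE)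
    (hEXG : StEXG) (hRX : StRX) (hFN : StFN) (hNU : StNU) (hM : StM) (hMA : StMA)
    {κ θ : Cardinal.{0}} (hκ : StronglyCompact κ) (hκθ : κ ≤ θ) (hAt : AtomsH κ θ) :
    Concl κ θ := by
  intro μ τ hμ hn
  have hμl : IsSuccLimit μ := by
    rcases hμ with h | ⟨σ, hσ, rfl⟩
    · exact h.1
    · exact Cardinal.isSuccLimit_ord hσ
  by_cases hω : τ.cof = ℵ₀
  · exact Or.inl hω
  right
  have hτ : ℵ₀ < τ.cof := lt_of_le_of_ne
    (Ordinal.aleph0_le_cof_iff.2 (Ordinal.one_lt_cof_iff.2 hn.2.1.1)) (Ne.symm hω)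
  by_cases hle : τ.cof ≤ θ
  · -- small cofinality
    left
    refine ⟨?_, hle⟩
    by_contra hlt
    rw [not_le] at hlt
    obtain ⟨γ, hγ, h⟩ := hM μ τ hn hμl hτ hlt.ne'
    by_cases hr : HODReg μ
    · exact absurd (h μ hr hγ le_rfl) (not_le.2 hlt)
    · obtain ⟨σ, hσ, rfl⟩ := hμ.resolve_left hr
      have hns : ¬ σ.IsRegular := fun h => hr (hodReg_of_regular h)
      have hc : τ.cof < σ := hlt.trans_le (Ordinal.cof_ord_le σ)
      obtain ⟨d, hd, h1, h2, h3⟩ := exists_reg hσ hns hγ hc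
      have h4 := h d.ord (hodReg_of_regular hd) h1 (Cardinal.ord_le_ord.2 h3.le)
      rw [hd.cof_ord] at h4
      exact absurd h4 (not_le.2 h2)
  · -- large cofinality
    right
    rw [not_le] at hle
    have hatom : ∀ ν : Cardinal.{0}, ν.IsRegular → ν < κ →
        ∃ A, DPs A ∧ (∀ a ∈ A, a.cof = ν ∧ a < τ) ∧ Atom τ A := by
      intro ν hν hνκ
      have hντ : ν < τ.cof := hνκ.trans_le (hκθ.trans hle.le)
      exact hAt τ _ hle (hNU ν hν).1 ((hNU ν hν).2 τ hντ)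
        (fun a ha => lt_of_eq_of_lt ha hνκ)
    have hcof : μ.cof = τ.cof := by
      by_contra hne
      obtain ⟨A, hA, hA1, hA2⟩ := hatom ℵ₀ Cardinal.isRegular_aleph0 hκ.unc
      obtain ⟨γ, hγ, h⟩ := hMA μ τ A hn hμl hτ hne hA (fun a ha => ⟨
        Ordinal.one_lt_cof_iff.1 (by rw [(hA1 a ha).1]; exact Cardinal.one_lt_aleph0),
        (hA1 a ha).2⟩) hA2
      by_cases hr : HODReg μ
      · exact hne (h μ hr hγ le_rfl)
      · obtain ⟨σ, hσ, rfl⟩ := hμ.resolve_left hr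
        have hns : ¬ σ.IsRegular := fun h => hr (hodReg_of_regular h)
        have hω : ℵ₀ < σ := lt_of_le_of_ne hσ (fun h => hns (h ▸ Cardinal.isRegular_aleph0))
        obtain ⟨d, hd, h1, h2, h3⟩ := exists_reg hσ hns hγ hω
        obtain ⟨d', hd', h1', h2', h3'⟩ := exists_reg hσ hns hγ h3
        have h4 := h d.ord (hodReg_of_regular hd) h1 (Cardinal.ord_le_ord.2 h3.le)
        have h5 := h d'.ord (hodReg_of_regular hd') h1' (Cardinal.ord_le_ord.2 h3'.le)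
        rw [hd.cof_ord] at h4
        rw [hd'.cof_ord] at h5
        rw [h4, h5] at h2'
        exact lt_irrefl _ h2'
    refine ⟨hle, hcof.symm, fun ν hν hνκ δ hδμ hδ => ?_⟩
    obtain ⟨A, hA, hA1, hA2⟩ := hatom ν hν hνκ
    rw [hcof]
    exact exists_fine hLE hSD hEXG hUU hRX hFN hn hτ hν.aleph0_le hδ hA
      (fun a ha => (hA1 a ha).2) (fun a ha => (hA1 a ha).1) hA2

/-! ### normal fine ultrafilters -/

theorem sc_of (hRF : StRF) (hUU : StUU) (hCF : StCF)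
    (hNU : StNU) (hRC : Pool.Agent.Helper36.HS.StRC) (hRX : StRX) (hFB : StFB) (hFD : StFD) (hCE : StCE) (hCX : StCX)
    (hCA : StCA) (hTY : StTY) (hLS : StLS1) (hYS : StYS) (hYD : StYD) (hXS : StXS)
    (hNF : StNF) (hPS : StPS) (hKEY : StKEY) (hJB : StJB) (hPB : StPB) {κ θ : Cardinal.{0}}
    (hκ : StronglyCompact κ) (hκθ : κ ≤ θ) (hAt : AtomsH κ θ)
    {c ν : Cardinal.{0}} {δ : Ordinal.{0}} (hc : c.IsRegular) (h2c : θ < c)
    (hcδ : c.ord ≤ δ) (hδc : δ < (succ c).ord) (hreg : HODReg δ) (hδcof : θ < δ.cof)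
    (hν : ν.IsRegular) (hνκ : ν < κ) :
    ((∀ ζ, c.ord ≤ ζ → ζ ≤ δ → HODReg ζ → ζ.cof = c) ∧ HODCover c δ ∧
      ∃ W, HODNFine c c.ord δ W) ∨
    ∃ η, c.ord < η ∧ η ≤ δ ∧ η.cof = δ.cof ∧
      ∀ β < η, ∃ ζ, β < ζ ∧ ζ < η ∧ HODReg ζ ∧ ζ.cof = ν := by
  have hkc : κ ≤ δ.cof := hκθ.trans hδcof.le
  have hunc : ℵ₀ < δ.cof := hκ.unc.trans_le hkc
  have hκc : κ < c := hκθ.trans_lt h2c
  have hunc' : ℵ₀ < c := hκ.unc.trans hκc
  -- the first atom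
  obtain ⟨A₁, hA₁, hA₁1, hA₁2⟩ := hAt δ _ hδcof (hNU ν hν).1
    ((hNU ν hν).2 δ (hνκ.trans_le hkc)) (fun a ha => by
      rw [Set.mem_ofPred_eq] at ha; rw [ha]; exact hνκ)
  have hA₁3 : ∀ a ∈ A₁, a < δ ∧ IsSuccLimit a ∧ a.cof = ν := fun a ha => by
    have h1 : a.cof = ν := (hA₁1 a ha).1
    refine ⟨(hA₁1 a ha).2, one_lt_cof_iff.1 ?_, h1⟩
    rw [h1]
    exact one_lt_aleph0.trans_le hν.aleph0_le
  obtain ⟨ρ, cf, hcf⟩ := hRC δ
  rcases rho_dich hPS hKEY hJB hPB hcf (c := c) (ν := ν) hunc hreg hA₁ hA₁3 hA₁2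
    (hνκ.trans_le hkc).ne hc (hνκ.trans hκc).ne with ⟨A₀, hA₀s, hA₀, hA₀2, hA₀ρ⟩ | h
  swap
  · exact Or.inr h
  left
  have hA₀3 : ∀ a ∈ A₀, a < δ ∧ a.cof = ν := fun a ha =>
    ⟨(hA₁3 a (hA₀s ha)).1, (hA₁3 a (hA₀s ha)).2.2⟩
  obtain ⟨R, hR, hR1, hR2⟩ := cr' hRX hunc hreg hcf hA₀ (fun a ha =>
    ⟨(hA₁3 a (hA₀s ha)).1, (hA₁3 a (hA₀s ha)).2.1, hA₀ρ a ha⟩) hA₀2
  have hcof : δ.cof = c := hCE c δ A₀ R hc hunc' hcδ hδc hunc hR hA₀2.1 hR1 hR2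
  refine ⟨cof_all hPB hFB hunc hcof hR hA₀2.1 hR1 hR2,
    cover_of hunc hcof hR hA₀2.1 hR1 hR2, ?_⟩
  obtain ⟨g, h, hgh⟩ := hCX c δ hc hunc' hcδ hδc hcof
  have hFF : ∀ s ∈ A₀, ∀ ζ < δ, HODReg ζ → c.ord ≤ ζ → FF R ζ s < ζ := fun s hs ζ hζδ hζr hcζ =>
    hFB c δ ζ s R hR (hR1 s hs) hcζ hζδ.le hζr
  have hty := hTY c δ g h ρ cf R A₀ hgh hcδ hcf hFF hR2
  -- the second atom
  have hX : DPs {σ | (ℵ₀ < σ.cof ∧ σ.cof < κ) ∧ Stat A₀ σ} := by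
    refine DP.and (dps_cof_mid hCF κ) ?_
    exact DP.statV (Q := fun a _ => a ∈ A₀) hA₀ 0
  have hX' : Stat {σ | (ℵ₀ < σ.cof ∧ σ.cof < κ) ∧ Stat A₀ σ} δ := by
    refine (hRF κ δ hκ hkc Unit (by simpa using Cardinal.one_lt_aleph0.trans hκ.unc)
      (fun _ => A₀) (fun _ => hA₀2.1) (fun _ a ha => by rw [(hA₀3 a ha).2]; exact hνκ)).mono
      fun a ha _ => ⟨⟨ha.1, ha.2.1⟩, ha.2.2 ()⟩
  obtain ⟨A, hA, hA1, hA2⟩ := hAt δ _ hδcof hX hX' (fun a ha => ha.1.2)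
  -- the canonical sets
  have hY : CAE c (fun i => h i ∈ A → YY c.ord ρ cf (FF R) A₀ (h i) ⊆ Im g i ∧
      UnbIn (YY c.ord ρ cf (FF R) A₀ (h i)) (h i)) := by
    refine ((hCA c hc hunc').2.2.2 _ hty).mono ?_
    rintro i ⟨ht, C, hC1, hC2, hC3⟩ hi
    obtain ⟨⟨h1, h2⟩, h3⟩ := (hA1 _ hi).1
    obtain ⟨h4, h5⟩ := hLS c.ord δ g h ρ cf R A₀ i C hgh.nor hcf hFF ht hC1 hC2 hC3 h1 h3
    exact hYS c.ord g h ρ cf (FF R) A₀ i h4 h1 h5
  obtain ⟨S, hS, hS1, hS2, hS3⟩ := hXS c δ g h A (YY c.ord ρ cf (FF R) A₀) hgh hreg hA hA2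
    (hYD c.ord ρ cf (FF R) A₀ hcf.dpr hcf.dpc (hFD R hR) hA₀) hY
  -- the ultrafilter
  have hU := hUU δ A hunc hA (fun a ha => (hA1 a ha).2) hA2
  rw [hcof] at hU
  refine hNF c.ord δ c (UA δ A) S hU hc.aleph0_le hS ?_ ?_ ?_
  · refine ⟨ordSet δ {a | OtpLt {i | i < δ ∧ S a i} c.ord}, mem_UA (dps_otp hS) hS2, ?_⟩
    intro a ha
    exact (mem_st_ordSet.1 ha).2
  · intro i hi
    refine mem_UA ?_ (hS1 i hi)
    exact dp_subst_at (Q := fun x v => S (v 0).rank x)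
      (hS.rename (fun n => if n = 0 then 1 else 0)) i
  · intro r hr hrU
    obtain ⟨ξ, hξ, hξ'⟩ := hS3 r hr (of_mem_UA hrU)
    refine ⟨ξ, hξ, mem_UA ?_ hξ'⟩
    exact dp_subst_at (Q := fun x v => r (v 0).rank = x)
      (hr.rename (fun n => if n = 0 then 1 else 0)) ξ

end Pool.Agent.Helper73.HX
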