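import Pool.Agent.Helper73.HX.Fin

/-!
# HX: the theorems in terms of atoms
-/

namespace Pool.Agent.Helper73.HX

open Ordinal Cardinal ZFSet Order Pool.Agent.Helper73.HODC Pool.Agent.Helper73.HE
open Pool.Agent.Helper73.HM Pool.Agent.Helper73.HU Pool.Agent.Helper73.HV
open Pool.Agent.Helper36.HS

/-- there are atoms above one cardinal `θ`, and `θ = κ` if `κ` is extendible -/
def Bd (κ θ : Cardinal.{0}) : Prop := κ ≤ θ ∧ (Extendible κ → θ = κ) ∧ AtomsH κ θ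

theorem exists_bd (hOZ : StOZ) (hCV : StCVO) (hNA : StNAO) (hCF : StCF) {κ : Cardinal.{0}}
    (hκ : StronglyCompact κ) (hF : Fail κ) : ∃ θ, Bd κ θ := by
  by_cases hE : Extendible κ
  · exact ⟨κ, le_rfl, fun _ => rfl, atoms_ext hOZ hCV hNA hCF hE hF⟩
  · obtain ⟨α, hα, h3, h5, h6⟩ := hF
    set κ₀ : Cardinal.{0} := succ (max κ α.card) with hκ₀
    have h4 : α ≤ κ₀.ord := by
      have h7 : α.card < κ₀ := lt_of_le_of_lt (le_max_right _ _) (Order.lt_succ _)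
      exact (Cardinal.lt_ord.2 h7).le
    have hkk : κ ≤ κ₀ := (le_max_left _ _).trans (Order.le_succ _)
    exact ⟨_, hkk.trans (Cardinal.cantor κ₀).le, fun h => absurd h hE,
      atoms_sc hCV hNA hκ hkk ⟨α, hα, h3, h4, h5, h6⟩⟩

/-- the cofinality of the successor cardinal of a regular cardinal in HOD -/
theorem cof_next' {θ : Cardinal.{0}} (hθ0 : ℵ₀ ≤ θ)
    (hU : ∀ τ τ', HODReg τ → HODNext τ τ' → θ < τ'.cof →
      ∃ U, HODUnif τ τ'.cof U) (hM : StM) {c : Cardinal.{0}} (hc : c.IsRegular)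
    (hθ : θ < c) {μ τ : Ordinal.{0}} (hμ : HODReg μ) (hμc : μ.cof = c)
    (hμs : μ < (succ c).ord) (hτ : HODNext μ τ) :
    τ.cof = ℵ₀ ∨ (τ.cof = c ∧ τ < (succ c).ord) := by
  have hs : HODReg (succ c).ord := hodReg_of_regular (Cardinal.isRegular_succ hc.aleph0_le)
  have hle : τ ≤ (succ c).ord := by
    by_contra hcon
    exact hτ.2.2 _ hμs (not_le.1 hcon) hs
  by_cases h0 : τ.cof = ℵ₀
  · exact Or.inl h0
  right
  have hunc : ℵ₀ < τ.cof := lt_of_le_of_ne (aleph0_le_cof.2 hτ.2.1.1) (Ne.symm h0)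
  have hne : τ ≠ (succ c).ord := by
    rintro rfl
    have h1 := (Cardinal.isRegular_succ hc.aleph0_le).cof_ord
    obtain ⟨U, hU⟩ := hU μ _ hμ hτ (by
      rw [h1]; exact hθ.trans (Order.lt_succ c))
    refine not_unif hμ.1 hU ?_
    rw [h1]
    exact hμs
  have hlt : τ < (succ c).ord := lt_of_le_of_ne hle hne
  refine ⟨?_, hlt⟩
  have h1 : τ.cof ≤ c := by
    have h2 : τ.card < succ c := Cardinal.lt_ord.1 hlt
    exact (Ordinal.cof_le_card τ).trans (Order.lt_succ_iff.1 h2)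
  by_contra hcon
  obtain ⟨γ, hγ, h2⟩ := hM μ τ hτ hμ.1 hunc (by rw [hμc]; exact fun h => hcon h.symm)
  have h3 := h2 μ hμ hγ le_rfl
  rw [hμc] at h3
  exact hcon (le_antisymm h1 h3)

/-- the conclusion of the theorem on normal fine ultrafilters, for one `θ` and one `c` -/
def ConclS (κ θ c : Cardinal.{0}) : Prop :=
  (∀ τ, HODNext c.ord τ → τ.cof = ℵ₀ ∨ (HODCover c τ ∧ ∃ W, HODNFine c c.ord τ W)) ∧
  ∀ δ, c.ord ≤ δ → δ < (succ c).ord → HODReg δ →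
    ((∀ ζ, c.ord ≤ ζ → ζ ≤ δ → HODReg ζ → ζ.cof = c) ∧ HODCover c δ ∧
      ∃ W, HODNFine c c.ord δ W) ∨
    (δ.cof ≤ θ ∧ ∀ μ, HODReg μ → μ.cof = c → HODNext μ δ → δ.cof = ℵ₀) ∨
    (θ < δ.cof ∧ ∀ ν : Cardinal.{0}, ν.IsRegular → ν < κ → ∃ η, c.ord < η ∧ η ≤ δ ∧
      η.cof = δ.cof ∧ ∀ β < η, ∃ ζ, β < ζ ∧ ζ < η ∧ HODReg ζ ∧ ζ.cof = ν)

theorem conclS_of {κ θ : Cardinal.{0}} (hκ : StronglyCompact κ) (hκθ : κ ≤ θ)
    (hL : ∀ (c ν : Cardinal.{0}) (δ : Ordinal.{0}), c.IsRegular → θ < c →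
      c.ord ≤ δ → δ < (succ c).ord → HODReg δ → θ < δ.cof → ν.IsRegular → ν < κ →
      ((∀ ζ, c.ord ≤ ζ → ζ ≤ δ → HODReg ζ → ζ.cof = c) ∧ HODCover c δ ∧
        ∃ W, HODNFine c c.ord δ W) ∨
      ∃ η, c.ord < η ∧ η ≤ δ ∧ η.cof = δ.cof ∧
        ∀ β < η, ∃ ζ, β < ζ ∧ ζ < η ∧ HODReg ζ ∧ ζ.cof = ν)
    (hU : ∀ τ τ', HODReg τ → HODNext τ τ' → θ < τ'.cof → ∃ U, HODUnif τ τ'.cof U)
    (hM : StM) {c : Cardinal.{0}} (hc : c.IsRegular) (hθ : θ < c) : ConclS κ θ c := by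
  have hcc : c.ord.cof = c := hc.cof_ord
  have hθ0 : ℵ₀ ≤ θ := hκ.unc.le.trans hκθ
  refine ⟨fun τ hτ => ?_, fun δ h7 h8 h9 => ?_⟩
  · rcases cof_next' hθ0 hU hM hc hθ (hodReg_of_regular hc) hcc
      (Cardinal.ord_lt_ord.2 (Order.lt_succ c)) hτ with h7 | ⟨h8, hlt⟩
    · exact Or.inl h7
    · right
      rcases hL c ℵ₀ τ hc hθ hτ.1.le hlt hτ.2.1 (by rw [h8]; exact hθ)
        Cardinal.isRegular_aleph0 hκ.unc with h9 | ⟨η, h9, h10, -, h11⟩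
      · exact h9.2
      · obtain ⟨ζ, h12, h13, h14, -⟩ := h11 c.ord h9
        exact absurd h14 (hτ.2.2 ζ h12 (h13.trans_le h10))
  · by_cases h10 : θ < δ.cof
    swap
    · right
      left
      refine ⟨not_lt.1 h10, fun μ hμ hμc hμδ => ?_⟩
      rcases cof_next' hθ0 hU hM hc hθ hμ hμc (hμδ.1.trans h8) hμδ with h11 | ⟨h11, -⟩
      · exact h11
      · rw [h11] at h10
        exact absurd hθ h10
    by_cases hcase : ∀ ν : Cardinal.{0}, ν.IsRegular → ν < κ → ∃ η, c.ord < η ∧ η ≤ δ ∧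
        η.cof = δ.cof ∧ ∀ β < η, ∃ ζ, β < ζ ∧ ζ < η ∧ HODReg ζ ∧ ζ.cof = ν
    · exact Or.inr (Or.inr ⟨h10, hcase⟩)
    · left
      by_contra hcon
      refine hcase fun ν hν hνκ => ?_
      exact (hL c ν δ hc hθ h7 h8 h9 h10 hν hνκ).resolve_left hcon

/-- the conclusion for the cardinals of `V` -/
def ConclF (θ σ : Cardinal.{0}) : Prop := ∀ τ, HODNext σ.ord τ →
  (τ.cof = ℵ₀ ∨ τ.cof = σ.ord.cof) ∧ (θ < τ.cof → ∃ W, HODFine σ.ord.cof σ.ord τ W)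

theorem conclF_of {κ θ : Cardinal.{0}} (hκ : StronglyCompact κ) (hκθ : κ ≤ θ)
    (hV : Concl κ θ) (hM : StM) {σ : Cardinal.{0}} (hσ : θ < σ) : ConclF θ σ := by
  have hωθ : ℵ₀ < θ := hκ.unc.trans_le hκθ
  have hωσ : ℵ₀ < σ := hωθ.trans hσ
  have hlim : IsSuccLimit σ.ord := Cardinal.isSuccLimit_ord hωσ.le
  intro τ hn
  rcases hV σ.ord τ (Or.inr ⟨σ, hωσ.le, rfl⟩) hn with h | ⟨h1, h2⟩ | ⟨h1, h2, h3⟩
  · refine ⟨Or.inl h, fun h4 => ?_⟩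
    rw [h] at h4
    exact absurd h4 (not_lt.2 hωθ.le)
  · by_cases hc : τ.cof = ℵ₀
    · exact ⟨Or.inl hc, fun h4 => absurd h4 (not_lt.2 h2)⟩
    have hτ : ℵ₀ < τ.cof := lt_of_le_of_ne
      (Ordinal.aleph0_le_cof_iff.2 (Ordinal.one_lt_cof_iff.2 hn.2.1.1)) (Ne.symm hc)
    have hns : ¬ σ.IsRegular := by
      intro hr
      rw [hr.cof_ord] at h1
      exact absurd (h1.trans h2) (not_le.2 hσ)
    refine ⟨Or.inr ?_, fun h4 => absurd h4 (not_lt.2 h2)⟩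
    by_contra hne
    obtain ⟨γ, hγ, h⟩ := hM σ.ord τ hn hlim hτ (Ne.symm hne)
    obtain ⟨d, hd, h4, h5, h6⟩ := exists_reg hωσ.le hns hγ (h2.trans_lt hσ)
    have h7 := h d.ord (hodReg_of_regular hd) h4 (Cardinal.ord_le_ord.2 h6.le)
    rw [hd.cof_ord] at h7
    exact absurd h7 (not_le.2 h5)
  · have h4 : ℵ₀ < σ.ord.cof := by
      rw [← h2]
      exact hωθ.trans h1
    refine ⟨Or.inr h2, fun _ => ?_⟩
    refine h3 ℵ₀ Cardinal.isRegular_aleph0 hκ.unc σ.ord le_rfl fun ζ h6 h7 _ => ?_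
    rw [le_antisymm h7 h6]
    exact h4.ne'

end Pool.Agent.Helper73.HX
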