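import Pool.Agent.Helper73.HM.Own

/-!
# HX: formulas which are absolute for all levels `V_θ`, `θ` a limit ordinal
-/

namespace Pool.Agent.Helper73.HX

open Ordinal Cardinal ZFSet Order Pool.Agent.Helper73.HODC Pool.Agent.Helper73.HE
  Pool.Agent.Helper73.HM

/-- the assignment takes values in `V_θ` -/
def InV (θ : Ordinal.{0}) (v : ℕ → ZFSet.{0}) : Prop := ∀ n, v n ∈ V_ θ

/-- `P` is defined by one formula in all the structures `V_θ`, `θ` a limit ordinal -/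
def DfnL (P : (ℕ → ZFSet.{0}) → Prop) : Prop :=
  ∃ φ : Fm, ∀ θ : Ordinal.{0}, IsSuccLimit θ → ∀ v, InV θ v →
    (Sat {z | z ∈ V_ θ} φ v ↔ P v)

theorem InV.cons {θ : Ordinal.{0}} {v : ℕ → ZFSet.{0}} (h : InV θ v) {x : ZFSet.{0}}
    (hx : x ∈ V_ θ) : InV θ (cons x v) := by
  intro n
  cases n with
  | zero => exact hx
  | succ n => exact h n

theorem InV.tail {θ : Ordinal.{0}} {v : ℕ → ZFSet.{0}} (h : InV θ v) :
    InV θ (fun n => v (n + 1)) := fun n => h (n + 1)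

namespace DfnL

variable {P Q : (ℕ → ZFSet.{0}) → Prop}

theorem congr (h : DfnL P) (e : ∀ v, P v ↔ Q v) : DfnL Q := by
  obtain ⟨φ, hφ⟩ := h
  exact ⟨φ, fun θ hθ v hv => (hφ θ hθ v hv).trans (e v)⟩

/-- the equivalence is only needed for assignments in a limit level -/
theorem congr' (h : DfnL P) (e : ∀ θ : Ordinal.{0}, IsSuccLimit θ → ∀ v, InV θ v → (P v ↔ Q v)) :
    DfnL Q := by
  obtain ⟨φ, hφ⟩ := h
  exact ⟨φ, fun θ hθ v hv => (hφ θ hθ v hv).trans (e θ hθ v hv)⟩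

theorem mem (i j : ℕ) : DfnL (fun v => v i ∈ v j) := ⟨.mem i j, fun _ _ _ _ => Iff.rfl⟩

theorem eq (i j : ℕ) : DfnL (fun v => v i = v j) := ⟨.eq i j, fun _ _ _ _ => Iff.rfl⟩

theorem not (h : DfnL P) : DfnL (fun v => ¬ P v) := by
  obtain ⟨φ, hφ⟩ := h
  exact ⟨.neg φ, fun θ hθ v hv => not_congr (hφ θ hθ v hv)⟩

theorem and (h : DfnL P) (h' : DfnL Q) : DfnL (fun v => P v ∧ Q v) := by
  obtain ⟨φ, hφ⟩ := h
  obtain ⟨ψ, hψ⟩ := h'
  exact ⟨.and φ ψ, fun θ hθ v hv => and_congr (hφ θ hθ v hv) (hψ θ hθ v hv)⟩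

theorem or (h : DfnL P) (h' : DfnL Q) : DfnL (fun v => P v ∨ Q v) :=
  ((h.not.and h'.not).not).congr fun v => by tauto

theorem imp (h : DfnL P) (h' : DfnL Q) : DfnL (fun v => P v → Q v) :=
  ((h.and h'.not).not).congr fun v => by tauto

theorem iff (h : DfnL P) (h' : DfnL Q) : DfnL (fun v => P v ↔ Q v) :=
  ((h.imp h').and (h'.imp h)).congr fun v => by tauto

theorem rename (h : DfnL P) (s : ℕ → ℕ) : DfnL (fun v => P (fun n => v (s n))) := by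
  obtain ⟨φ, hφ⟩ := h
  exact ⟨ren s φ, fun θ hθ v hv => (sat_ren _ φ s v).trans (hφ θ hθ _ fun n => hv _)⟩

/-- existential quantifier, when a witness can be found in the level -/
theorem ex {Q : ZFSet.{0} → (ℕ → ZFSet.{0}) → Prop}
    (h : DfnL (fun v => Q (v 0) (fun n => v (n + 1))))
    (hb : ∀ θ : Ordinal.{0}, IsSuccLimit θ → ∀ v, InV θ v → (∃ x, Q x v) → ∃ x ∈ V_ θ, Q x v) :
    DfnL (fun v => ∃ x, Q x v) := by
  obtain ⟨φ, hφ⟩ := h
  refine ⟨.neg (.all (.neg φ)), fun θ hθ v hv => ?_⟩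
  have h1 : Sat {z | z ∈ V_ θ} (.neg (.all (.neg φ))) v ↔ ∃ x ∈ V_ θ, Q x v := by
    simp only [Sat, Set.mem_ofPred_eq]
    push Not
    refine exists_congr fun x => and_congr_right fun hx => ?_
    exact hφ θ hθ _ (hv.cons hx)
  rw [h1]
  constructor
  · rintro ⟨x, -, hx⟩
    exact ⟨x, hx⟩
  · exact hb θ hθ v hv

/-- universal quantifier, when a counterexample can be found in the level -/
theorem all {Q : ZFSet.{0} → (ℕ → ZFSet.{0}) → Prop}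
    (h : DfnL (fun v => Q (v 0) (fun n => v (n + 1))))
    (hb : ∀ θ : Ordinal.{0}, IsSuccLimit θ → ∀ v, InV θ v → (∃ x, ¬ Q x v) →
      ∃ x ∈ V_ θ, ¬ Q x v) :
    DfnL (fun v => ∀ x, Q x v) :=
  (DfnL.ex (Q := fun x v => ¬ Q x v) h.not hb).not.congr fun v => by
    simp only [not_exists, not_not]

/-- quantifier over the elements of a set -/
theorem exMem {Q : ZFSet.{0} → (ℕ → ZFSet.{0}) → Prop} (i : ℕ)
    (h : DfnL (fun v => Q (v 0) (fun n => v (n + 1)))) : DfnL (fun v => ∃ x ∈ v i, Q x v) := by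
  refine DfnL.ex (Q := fun x v => x ∈ v i ∧ Q x v) ((DfnL.mem 0 (i + 1)).and h) ?_
  rintro θ - v hv ⟨x, hx, hq⟩
  exact ⟨x, (isTransitive_vonNeumann _).mem_trans hx (hv i), hx, hq⟩

theorem allMem {Q : ZFSet.{0} → (ℕ → ZFSet.{0}) → Prop} (i : ℕ)
    (h : DfnL (fun v => Q (v 0) (fun n => v (n + 1)))) : DfnL (fun v => ∀ x ∈ v i, Q x v) :=
  (DfnL.exMem (Q := fun x v => ¬ Q x v) i h.not).not.congr fun v => by
    push Not
    rfl

end DfnL

/-- transfer by an elementary embedding -/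
theorem DfnL.transfer {P : (ℕ → ZFSet.{0}) → Prop} (h : DfnL P) {γ β : Ordinal.{0}}
    (hγ : IsSuccLimit γ) (hβ : IsSuccLimit β) {j : ZFSet.{0} → ZFSet.{0}}
    (hj : ∀ x ∈ V_ γ, j x ∈ V_ β)
    (he : ∀ (φ : Fm) (v : ℕ → ZFSet.{0}), (∀ n, v n ∈ V_ γ) →
      (Sat {z | z ∈ V_ γ} φ v ↔ Sat {z | z ∈ V_ β} φ (fun n => j (v n))))
    (v : ℕ → ZFSet.{0}) (hv : InV γ v) : P v ↔ P (fun n => j (v n)) := by
  obtain ⟨φ, hφ⟩ := h
  rw [← hφ γ hγ v hv, he φ v hv]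
  exact hφ β hβ _ fun n => hj _ (hv n)

/-! ### basic notions -/

theorem lim_succ {θ a : Ordinal.{0}} (hθ : IsSuccLimit θ) (h : a < θ) : a + 1 < θ := by
  rw [← Order.succ_eq_add_one]
  exact hθ.succ_lt h

theorem dfnL_singleton (i j : ℕ) : DfnL (fun v => v i = {v j}) := by
  refine ((DfnL.allMem (Q := fun u v => u = v j) i (DfnL.eq 0 (j + 1))).and
    (DfnL.mem j i)).congr fun v => ?_
  constructor
  · rintro ⟨h1, h2⟩
    ext u
    rw [mem_singleton]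
    exact ⟨h1 u, fun h => h ▸ h2⟩
  · intro h
    rw [h]
    exact ⟨fun u hu => mem_singleton.1 hu, mem_singleton.2 rfl⟩

theorem dfnL_upair (i j k : ℕ) : DfnL (fun v => v i = {v j, v k}) := by
  refine ((DfnL.allMem (Q := fun u v => u = v j ∨ u = v k) i
    ((DfnL.eq 0 (j + 1)).or (DfnL.eq 0 (k + 1)))).and
    ((DfnL.mem j i).and (DfnL.mem k i))).congr fun v => ?_
  constructor
  · rintro ⟨h1, h2, h3⟩
    ext u
    rw [ZFSet.mem_pair]
    refine ⟨h1 u, ?_⟩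
    rintro (h | h)
    · exact h ▸ h2
    · exact h ▸ h3
  · intro h
    rw [h]
    exact ⟨fun u hu => ZFSet.mem_pair.1 hu, ZFSet.mem_pair.2 (Or.inl rfl),
      ZFSet.mem_pair.2 (Or.inr rfl)⟩

theorem mem_V_of_mem {θ : Ordinal.{0}} {x y : ZFSet.{0}} (h : x ∈ y) (hy : y ∈ V_ θ) : x ∈ V_ θ :=
  (isTransitive_vonNeumann _).mem_trans h hy

theorem singleton_mem_V {θ : Ordinal.{0}} (hθ : IsSuccLimit θ) {x : ZFSet.{0}} (h : x ∈ V_ θ) :
    ({x} : ZFSet.{0}) ∈ V_ θ := by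
  rw [mem_vonNeumann, rank_singleton]
  exact hθ.succ_lt (mem_vonNeumann.1 h)

theorem upair_mem_V {θ : Ordinal.{0}} (hθ : IsSuccLimit θ) {x y : ZFSet.{0}} (h : x ∈ V_ θ)
    (h' : y ∈ V_ θ) : ({x, y} : ZFSet.{0}) ∈ V_ θ := by
  rw [mem_vonNeumann, rank_pair]
  exact max_lt (hθ.succ_lt (mem_vonNeumann.1 h)) (hθ.succ_lt (mem_vonNeumann.1 h'))

theorem pair_mem_V {θ : Ordinal.{0}} (hθ : IsSuccLimit θ) {x y : ZFSet.{0}} (h : x ∈ V_ θ)
    (h' : y ∈ V_ θ) : ZFSet.pair x y ∈ V_ θ :=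
  upair_mem_V hθ (singleton_mem_V hθ h) (upair_mem_V hθ h h')

theorem mem_V_of_pair {θ : Ordinal.{0}} {x y : ZFSet.{0}} (h : ZFSet.pair x y ∈ V_ θ) :
    x ∈ V_ θ ∧ y ∈ V_ θ := by
  have h1 : ({x, y} : ZFSet.{0}) ∈ V_ θ := mem_V_of_mem (ZFSet.mem_pair.2 (Or.inr rfl)) h
  exact ⟨mem_V_of_mem (ZFSet.mem_pair.2 (Or.inl rfl)) h1,
    mem_V_of_mem (ZFSet.mem_pair.2 (Or.inr rfl)) h1⟩

theorem dfnL_pair (i j k : ℕ) : DfnL (fun v => v i = ZFSet.pair (v j) (v k)) := by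
  refine ((DfnL.allMem (Q := fun u v => u = {v j} ∨ u = {v j, v k}) i
    ((dfnL_singleton 0 (j + 1)).or (dfnL_upair 0 (j + 1) (k + 1)))).and
    ((DfnL.exMem (Q := fun u v => u = {v j}) i (dfnL_singleton 0 (j + 1))).and
    (DfnL.exMem (Q := fun u v => u = {v j, v k}) i (dfnL_upair 0 (j + 1) (k + 1))))).congr
    fun v => ?_
  constructor
  · rintro ⟨h1, ⟨a, ha, rfl⟩, b, hb, rfl⟩
    ext u
    rw [ZFSet.pair, ZFSet.mem_pair]
    refine ⟨h1 u, ?_⟩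
    rintro (h | h)
    · exact h ▸ ha
    · exact h ▸ hb
  · intro h
    rw [h]
    exact ⟨fun u hu => ZFSet.mem_pair.1 hu, ⟨_, ZFSet.mem_pair.2 (Or.inl rfl), rfl⟩,
      ⟨_, ZFSet.mem_pair.2 (Or.inr rfl), rfl⟩⟩

theorem dfnL_pair_mem (i j k : ℕ) : DfnL (fun v => ZFSet.pair (v i) (v j) ∈ v k) :=
  (DfnL.exMem (Q := fun p v => p = ZFSet.pair (v i) (v j)) k
    (dfnL_pair 0 (i + 1) (j + 1))).congr fun v => by
      constructor
      · rintro ⟨x, hx, rfl⟩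
        exact hx
      · intro h
        exact ⟨_, h, rfl⟩

/-- quantifier over the first coordinates of the pairs in a set -/
theorem DfnL.exPair {Q : ZFSet.{0} → ZFSet.{0} → (ℕ → ZFSet.{0}) → Prop} (i : ℕ)
    (h : DfnL (fun v => Q (v 1) (v 0) (fun n => v (n + 2)))) :
    DfnL (fun v => ∃ x y, ZFSet.pair x y ∈ v i ∧ Q x y v) := by
  refine DfnL.ex (Q := fun x v => ∃ y, ZFSet.pair x y ∈ v i ∧ Q x y v) ?_ ?_
  · refine DfnL.ex (Q := fun y v => ZFSet.pair (v 0) y ∈ v (i + 1) ∧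
      Q (v 0) y (fun n => v (n + 1))) ?_ ?_
    · exact (dfnL_pair_mem 1 0 (i + 2)).and h
    · rintro θ - v hv ⟨y, hy, hq⟩
      exact ⟨y, (mem_V_of_pair (mem_V_of_mem hy (hv _))).2, hy, hq⟩
  · rintro θ - v hv ⟨x, y, hy, hq⟩
    exact ⟨x, (mem_V_of_pair (mem_V_of_mem hy (hv _))).1, y, hy, hq⟩

theorem DfnL.allPair {Q : ZFSet.{0} → ZFSet.{0} → (ℕ → ZFSet.{0}) → Prop} (i : ℕ)
    (h : DfnL (fun v => Q (v 1) (v 0) (fun n => v (n + 2)))) :
    DfnL (fun v => ∀ x y, ZFSet.pair x y ∈ v i → Q x y v) :=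
  (DfnL.exPair (Q := fun x y v => ¬ Q x y v) i h.not).not.congr fun v => by
    push Not
    rfl

theorem dfnL_simu (i : ℕ) : DfnL (fun v => Simu (v i)) := by
  refine DfnL.allPair (Q := fun a b v => ∀ w, w ∈ a → ∃ z, z ∈ b ∧ ZFSet.pair w z ∈ v i) i ?_
  refine (DfnL.allMem (Q := fun w v => ∃ z ∈ v 0, ZFSet.pair w z ∈ v (i + 2)) 1 ?_).congr ?_
  · exact DfnL.exMem (Q := fun z v => ZFSet.pair (v 0) z ∈ v (i + 3)) 1
      (dfnL_pair_mem 1 0 (i + 4))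
  · intro v
    rfl

theorem exists_simu_V {θ : Ordinal.{0}} (hθ : IsSuccLimit θ) {x y : ZFSet.{0}} (hy : y ∈ V_ θ)
    (h : x.rank ≤ y.rank) : ∃ W ∈ V_ θ, ZFSet.pair x y ∈ W ∧ Simu W := by
  have hx' : x ∈ V_ (succ y.rank) := mem_vonNeumann.2 (h.trans_lt (lt_succ _))
  have hy' : y ∈ V_ (succ y.rank) := mem_vonNeumann.2 (lt_succ _)
  refine ⟨pairSep (fun a b => a.rank ≤ b.rank) (V_ (succ y.rank)) (V_ (succ y.rank)), ?_, ?_, ?_⟩
  · rw [mem_vonNeumann]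
    have h1 : succ (succ (succ y.rank)) < θ :=
      hθ.succ_lt (hθ.succ_lt (hθ.succ_lt (mem_vonNeumann.1 hy)))
    refine lt_of_le_of_lt ?_ h1
    rw [rank_le_iff]
    intro p hp
    rw [mem_pairSep] at hp
    obtain ⟨a, ha, b, hb, rfl, -⟩ := hp
    rw [mem_vonNeumann] at ha hb
    rw [ZFSet.pair, rank_pair, rank_pair, rank_singleton]
    have h2 : a.rank ≤ y.rank := Order.lt_succ_iff.1 ha
    have h3 : b.rank ≤ y.rank := Order.lt_succ_iff.1 hb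
    rw [Order.lt_succ_iff]
    exact max_le (Order.succ_le_succ (Order.succ_le_succ h2))
      (Order.succ_le_succ (max_le (Order.succ_le_succ h2) (Order.succ_le_succ h3)))
  · rw [mem_pairSep]
    exact ⟨x, hx', y, hy', rfl, h⟩
  · intro a b hab w hw
    rw [mem_pairSep] at hab
    obtain ⟨a', ha', b', hb', e, hr⟩ := hab
    obtain ⟨rfl, rfl⟩ := pair_inj.1 e
    obtain ⟨z, hz, hwz⟩ := lt_rank_iff.1 ((rank_lt_of_mem hw).trans_le hr)
    refine ⟨z, hz, ?_⟩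
    rw [mem_pairSep]
    exact ⟨w, (isTransitive_vonNeumann _).mem_trans hw ha', z,
      (isTransitive_vonNeumann _).mem_trans hz hb', rfl, hwz⟩

theorem dfnL_rank_le (i j : ℕ) : DfnL (fun v => (v i).rank ≤ (v j).rank) := by
  refine (DfnL.ex (Q := fun W v => ZFSet.pair (v i) (v j) ∈ W ∧ Simu W)
    ((dfnL_pair_mem (i + 1) (j + 1) 0).and (dfnL_simu 0)) ?_).congr fun v => ?_
  · rintro θ hθ v hv ⟨W, h1, h2⟩
    exact exists_simu_V hθ (hv j) (h2.rank_le _ _ h1)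
  · constructor
    · rintro ⟨W, h1, h2⟩
      exact h2.rank_le _ _ h1
    · intro h
      exact exists_simu h

theorem dfnL_rank_lt (i j : ℕ) : DfnL (fun v => (v i).rank < (v j).rank) :=
  (dfnL_rank_le j i).not.congr fun v => by rw [not_le]

theorem dfnL_rank_eq (i j : ℕ) : DfnL (fun v => (v i).rank = (v j).rank) :=
  ((dfnL_rank_le i j).and (dfnL_rank_le j i)).congr fun _ =>
    ⟨fun h => le_antisymm h.1 h.2, fun h => ⟨h.le, h.ge⟩⟩

theorem toZFSet_mem_V {θ a : Ordinal.{0}} (h : a < θ) : a.toZFSet ∈ V_ θ := by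
  rw [mem_vonNeumann, rank_toZFSet]
  exact h

/-- quantifier over the ordinals below a given one -/
theorem DfnL.exLt {Q : Ordinal.{0} → (ℕ → ZFSet.{0}) → Prop} (i : ℕ)
    (h : DfnL (fun v => Q (v 0).rank (fun n => v (n + 1)))) :
    DfnL (fun v => ∃ a < (v i).rank, Q a v) := by
  refine (DfnL.ex (Q := fun x v => x.rank < (v i).rank ∧ Q x.rank v)
    ((dfnL_rank_lt 0 (i + 1)).and h) ?_).congr fun v => ?_
  · rintro θ hθ v hv ⟨x, h1, h2⟩
    exact ⟨x, mem_vonNeumann.2 (h1.trans (mem_vonNeumann.1 (hv i))), h1, h2⟩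
  · constructor
    · rintro ⟨x, h1, h2⟩
      exact ⟨_, h1, h2⟩
    · rintro ⟨a, h1, h2⟩
      refine ⟨a.toZFSet, ?_, ?_⟩
      · rwa [rank_toZFSet]
      · rwa [rank_toZFSet]

theorem DfnL.allLt {Q : Ordinal.{0} → (ℕ → ZFSet.{0}) → Prop} (i : ℕ)
    (h : DfnL (fun v => Q (v 0).rank (fun n => v (n + 1)))) :
    DfnL (fun v => ∀ a < (v i).rank, Q a v) :=
  (DfnL.exLt (Q := fun a v => ¬ Q a v) i h.not).not.congr fun v => by
    push Not
    rfl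

theorem dfnL_st (i j : ℕ) : DfnL (fun v => (v i).rank ∈ st (v j)) :=
  (DfnL.exMem (Q := fun z v => z.rank = (v i).rank) j (dfnL_rank_eq 0 (i + 1))).congr
    fun _ => Iff.rfl

theorem dfnL_fnSet (i j k : ℕ) : DfnL (fun v => (v k).rank ∈ fnSet (v i) (v j).rank) := by
  refine (DfnL.exPair (Q := fun u w v => u.rank = (v j).rank ∧ w.rank = (v k).rank) i
    ((dfnL_rank_eq 1 (j + 2)).and (dfnL_rank_eq 0 (k + 2)))).congr fun _ => Iff.rfl

end Pool.Agent.Helper73.HX
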