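import Pool.Agent.Helper73.HX.Emb

/-!
# HX: extendible cardinals are strongly compact strong limit cardinals
-/

namespace Pool.Agent.Helper73.HX

open Ordinal Cardinal ZFSet Order Pool.Agent.Helper73.HODC Pool.Agent.Helper73.HE
  Pool.Agent.Helper73.HM

namespace Emb

variable {γ β κ : Ordinal.{0}} {j : ZFSet.{0} → ZFSet.{0}}

theorem fn_eq (h : Emb γ β κ j) (hγ : IsSuccLimit γ) {z : ZFSet.{0}} (hz : z ∈ V_ γ)
    {x : Ordinal.{0}} (hx : x < γ) (hf : fn z x < γ) : fn (j z) (jo j x) = jo j (fn z x) :=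
  (h.tr3 hγ (dfnL_fn 0 1 2) hz (toZFSet_mem_V hx) (toZFSet_mem_V hf)).1
    (by show fn z x.toZFSet.rank = (fn z x).toZFSet.rank; rw [rank_toZFSet, rank_toZFSet])

/-- transfer of a statement with an unbounded universal quantifier -/
theorem trAll (h : Emb γ β κ j) (hγ : IsSuccLimit γ) {P : (ℕ → ZFSet.{0}) → Prop} (hP : DfnL P)
    (v : ℕ → ZFSet.{0}) (hv : InV γ v) :
    (∀ x ∈ V_ γ, P (cons x v)) ↔ ∀ x ∈ V_ β, P (cons x (fun n => j (v n))) := by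
  obtain ⟨φ, hφ⟩ := hP
  have h1 := h.elem (.all φ) v hv
  simp only [Sat, Set.mem_ofPred_eq] at h1
  have h2 : (∀ x ∈ V_ γ, Sat {z | z ∈ V_ γ} φ (cons x v)) ↔ ∀ x ∈ V_ γ, P (cons x v) :=
    forall₂_congr fun x hx => hφ γ hγ _ (hv.cons hx)
  have h3 : (∀ x ∈ V_ β, Sat {z | z ∈ V_ β} φ (cons x (fun n => j (v n)))) ↔
      ∀ x ∈ V_ β, P (cons x (fun n => j (v n))) :=
    forall₂_congr fun x hx => hφ β (h.lim hγ) _ (InV.cons (fun n => h.maps _ (hv n)) hx)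
  rw [← h2, ← h3]
  exact h1

/-- `κ` is regular -/
theorem not_cofW (h : Emb γ β κ j) (hγ : IsSuccLimit γ) (hκ : κ < γ) {ρ : Ordinal.{0}}
    (hρ : ρ < κ) : ¬ CofW ρ κ := by
  rintro ⟨f, h1, h2⟩
  obtain ⟨z, hz, hz'⟩ := exists_fn f ρ
  have hzV : z ∈ V_ γ := by
    rw [mem_vonNeumann]
    refine lt_of_le_of_lt (hz' κ hρ.le h1) ?_
    have h4 := lim_succ hγ (lim_succ hγ hκ)
    rwa [add_assoc, one_add_one_eq_two] at h4
  have hP : DfnL (fun v => ∀ b < (v 1).rank, ∃ x < (v 2).rank, ¬ fn (v 0) x < b) := by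
    refine DfnL.allLt (Q := fun b v => ∃ x < (v 2).rank, ¬ fn (v 0) x < b) 1 ?_
    exact DfnL.exLt (Q := fun x v => ¬ fn (v 1) x < (v 0).rank) 3 (dfnL_fn_lt 2 0 1).not
  have h3 : ∀ b < jo j κ, ∃ x < jo j ρ, ¬ fn (j z) x < b :=
    (h.tr3 hγ hP hzV (toZFSet_mem_V hκ) (toZFSet_mem_V (hρ.trans hκ))).1 (by
      show ∀ b < κ.toZFSet.rank, ∃ x < ρ.toZFSet.rank, ¬ fn z x < b
      rw [rank_toZFSet, rank_toZFSet]
      intro b hb
      obtain ⟨x, hx, h4⟩ := h2 b hb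
      exact ⟨x, hx, by rw [hz x hx]; exact not_lt.2 h4⟩)
  rw [h.jo_fix hρ] at h3
  obtain ⟨x, hx, h4⟩ := h3 κ (hκ.trans (h.lt_jo hγ hκ))
  have hxκ := hx.trans hρ
  have h5 : fn z x < κ := by rw [hz x hx]; exact h1 x hx
  have h6 := h.fn_eq hγ hzV (hxκ.trans hκ) (h5.trans hκ)
  rw [h.jo_fix hxκ, h.jo_fix h5] at h6
  rw [h6] at h4
  exact h4 h5

/-- `κ` is uncountable -/
theorem κ_ne_omega (h : Emb γ β κ j) (hγ : IsSuccLimit γ) (hκ : κ < γ) : κ ≠ ω := by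
  rintro rfl
  have hP : DfnL (fun v => ∀ x ∈ v 0, (∃ y ∈ x, ∀ z ∈ x, z ∈ y ∨ z = y) ∨ x.rank = 0) := by
    refine DfnL.allMem (Q := fun x _ => (∃ y ∈ x, ∀ z ∈ x, z ∈ y ∨ z = y) ∨ x.rank = 0) 0 ?_
    refine DfnL.or ?_ (dfnL_rank_zero 0)
    refine DfnL.exMem (Q := fun y v => ∀ z ∈ v 0, z ∈ y ∨ z = y) 0 ?_
    exact DfnL.allMem (Q := fun z v => z ∈ v 0 ∨ z = v 0) 1 ((DfnL.mem 0 1).or (DfnL.eq 0 1))
  have h1 : ∀ x ∈ j (ω : Ordinal.{0}).toZFSet, (∃ y ∈ x, ∀ z ∈ x, z ∈ y ∨ z = y) ∨ x.rank = 0 :=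
    (h.tr3 hγ hP (toZFSet_mem_V hκ) (toZFSet_mem_V hκ) (toZFSet_mem_V hκ)).1 (by
      show ∀ x ∈ (ω : Ordinal.{0}).toZFSet, (∃ y ∈ x, ∀ z ∈ x, z ∈ y ∨ z = y) ∨ x.rank = 0
      intro x hx
      obtain ⟨b, hb, rfl⟩ := mem_toZFSet_iff.1 hx
      obtain ⟨n, rfl⟩ := lt_omega0.1 hb
      rcases n with _ | n
      · right
        rw [rank_toZFSet]
        rfl
      · left
        refine ⟨(n : Ordinal.{0}).toZFSet, mem_toZFSet.2 (by exact_mod_cast n.lt_succ_self), ?_⟩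
        intro z hz
        obtain ⟨c, hc, rfl⟩ := mem_toZFSet_iff.1 hz
        have h2 : c ≤ n := by
          have h3 : c < succ (n : Ordinal.{0}) := by
            rw [Order.succ_eq_add_one]
            exact_mod_cast hc
          exact Order.lt_succ_iff.1 h3
        rcases h2.lt_or_eq with h3 | h3
        · exact Or.inl (mem_toZFSet.2 h3)
        · exact Or.inr (by rw [h3]))
  rcases h1 _ h.crit with ⟨y, hy, h2⟩ | h2
  · obtain ⟨b, hb, rfl⟩ := mem_toZFSet_iff.1 hy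
    rcases h2 (succ b).toZFSet (mem_toZFSet.2 (hγ.succ_lt hb)) with h3 | h3
    · exact absurd (mem_toZFSet.1 h3) (not_lt.2 (lt_succ b).le)
    · exact absurd (toZFSet_inj' h3) (lt_succ b).ne'
  · rw [rank_toZFSet] at h2
    exact absurd h2 hγ.bot_lt.ne'

/-- `j` fixes the sets of ordinals bounded below `κ` -/
theorem fix_sub (h : Emb γ β κ j) (hγ : IsSuccLimit γ) (hκ : κ < γ) {η : Ordinal.{0}}
    (hη : η < κ) {y : ZFSet.{0}} (hy : y ⊆ η.toZFSet) : j y = y := by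
  have hηγ := hη.trans hκ
  have hyV : y ∈ V_ γ := by
    rw [mem_vonNeumann]
    refine lt_of_le_of_lt (rank_mono hy) ?_
    rwa [rank_toZFSet]
  have hP : DfnL (fun v => ∀ z ∈ v 0, z ∈ v 1) :=
    DfnL.allMem (Q := fun z v => z ∈ v 1) 0 (DfnL.mem 0 2)
  have h1 : ∀ z ∈ j y, z ∈ j η.toZFSet :=
    (h.tr3 hγ hP hyV (toZFSet_mem_V hηγ) hyV).1 (fun z hz => hy hz)
  rw [h.fix η hη] at h1
  ext z
  constructor
  · intro hz
    obtain ⟨a, ha, rfl⟩ := mem_toZFSet_iff.1 (h1 z hz)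
    rw [← h.fix a (ha.trans hη), ← h.mem_iff hγ (toZFSet_mem_V ((ha.trans hη).trans hκ)) hyV] at hz
    exact hz
  · intro hz
    obtain ⟨a, ha, rfl⟩ := mem_toZFSet_iff.1 (hy hz)
    rw [← h.fix a (ha.trans hη), ← h.mem_iff hγ (toZFSet_mem_V ((ha.trans hη).trans hκ)) hyV]
    exact hz

/-- there is no injection of `κ` into the power set of some `η < κ` -/
theorem no_inj (h : Emb γ β κ j) (hγ : IsSuccLimit γ) (hκ : κ < γ) {η : Ordinal.{0}}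
    (hη : η < κ) (X : Ordinal.{0} → ZFSet.{0}) (hX : ∀ a < κ, X a ⊆ η.toZFSet)
    (hinj : ∀ a < κ, ∀ b < κ, X a = X b → a = b) (hG : gr κ X ∈ V_ γ) : False := by
  have hηγ := hη.trans hκ
  set G := gr κ X with hGdef
  have hκV := toZFSet_mem_V hκ
  have hP1 : DfnL (fun v => ∀ x ∈ v 1, ∃ x' y, ZFSet.pair x' y ∈ v 0 ∧ x' = x) := by
    refine DfnL.allMem (Q := fun x v => ∃ x' y, ZFSet.pair x' y ∈ v 0 ∧ x' = x) 1 ?_
    exact DfnL.exPair (Q := fun x' y v => x' = v 0) 1 (DfnL.eq 1 2)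
  have hP2 : DfnL (fun v => ∀ x y, ZFSet.pair x y ∈ v 0 → ∀ z ∈ y, z ∈ v 1) := by
    refine DfnL.allPair (Q := fun x y v => ∀ z ∈ y, z ∈ v 1) 0 ?_
    exact DfnL.allMem (Q := fun z v => z ∈ v 3) 0 (DfnL.mem 0 4)
  have hP3 : DfnL (fun v => ∀ x y, ZFSet.pair x y ∈ v 0 → ∀ x' y', ZFSet.pair x' y' ∈ v 0 →
      y = y' → x = x') := by
    refine DfnL.allPair (Q := fun x y v => ∀ x' y', ZFSet.pair x' y' ∈ v 0 →
      y = y' → x = x') 0 ?_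
    exact DfnL.allPair (Q := fun x' y' v => v 0 = y' → v 1 = x') 2
      ((DfnL.eq 2 0).imp (DfnL.eq 3 1))
  have hP4 : DfnL (fun v => ∃ x y, ZFSet.pair x y ∈ v 0 ∧ y = v 1) :=
    DfnL.exPair (Q := fun x y v => y = v 1) 0 (DfnL.eq 0 3)
  have h1 : ∀ x ∈ j κ.toZFSet, ∃ x' y, ZFSet.pair x' y ∈ j G ∧ x' = x :=
    (h.tr3 hγ hP1 hG hκV hκV).1 (by
      show ∀ x ∈ κ.toZFSet, ∃ x' y, ZFSet.pair x' y ∈ G ∧ x' = x
      intro x hx
      obtain ⟨a, ha, rfl⟩ := mem_toZFSet_iff.1 hx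
      exact ⟨_, X a, mem_gr.2 ⟨a, ha, rfl⟩, rfl⟩)
  have h2 : ∀ x y, ZFSet.pair x y ∈ j G → ∀ z ∈ y, z ∈ j η.toZFSet :=
    (h.tr3 hγ hP2 hG (toZFSet_mem_V hηγ) hκV).1 (by
      show ∀ x y, ZFSet.pair x y ∈ G → ∀ z ∈ y, z ∈ η.toZFSet
      intro x y hxy z hz
      obtain ⟨a, ha, h3⟩ := mem_gr.1 hxy
      obtain ⟨rfl, rfl⟩ := pair_inj.1 h3
      exact hX a ha hz)
  have h3 : ∀ x y, ZFSet.pair x y ∈ j G → ∀ x' y', ZFSet.pair x' y' ∈ j G → y = y' → x = x' :=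
    (h.tr3 hγ hP3 hG hκV hκV).1 (by
      show ∀ x y, ZFSet.pair x y ∈ G → ∀ x' y', ZFSet.pair x' y' ∈ G → y = y' → x = x'
      intro x y hxy x' y' hxy' he
      obtain ⟨a, ha, h3⟩ := mem_gr.1 hxy
      obtain ⟨rfl, rfl⟩ := pair_inj.1 h3
      obtain ⟨b, hb, h4⟩ := mem_gr.1 hxy'
      obtain ⟨rfl, rfl⟩ := pair_inj.1 h4
      rw [hinj a ha b hb he])
  rw [h.fix η hη] at h2
  obtain ⟨x, y, hxy, hx⟩ := h1 κ.toZFSet (h.mem_jκ hγ hκ hκ.le)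
  subst hx
  have hy : y ⊆ η.toZFSet := fun z hz => h2 _ _ hxy z hz
  have hjy := h.fix_sub hγ hκ hη hy
  have hyV : y ∈ V_ γ := by
    rw [mem_vonNeumann]
    refine lt_of_le_of_lt (rank_mono hy) ?_
    rwa [rank_toZFSet]
  have h4 : ∃ x y', ZFSet.pair x y' ∈ G ∧ y' = y :=
    (h.tr3 hγ hP4 hG hyV hyV).2 (by
      show ∃ x y', ZFSet.pair x y' ∈ j G ∧ y' = j y
      exact ⟨_, y, hxy, hjy.symm⟩)
  obtain ⟨x', y', hx', rfl⟩ := h4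
  obtain ⟨a, ha, h5⟩ := mem_gr.1 hx'
  obtain ⟨rfl, rfl⟩ := pair_inj.1 h5
  have h6 := h.pair_mem hγ hG hx'
  rw [hjy, h.fix a ha] at h6
  exact absurd (toZFSet_inj' (h3 _ _ h6 _ _ hxy rfl)) ha.ne

end Emb

namespace Extendible

variable {κ : Cardinal.{0}}

theorem limit (h : Extendible κ) (a : Ordinal.{0}) : ∃ γ β j, IsSuccLimit γ ∧ κ.ord < γ ∧ a < γ ∧
    Emb γ β κ.ord j := by
  obtain ⟨γ, hγ, h1⟩ := exists_limit (max κ.ord a)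
  obtain ⟨β, j, hj⟩ := h γ (lt_of_le_of_lt (le_max_left _ _) h1)
  exact ⟨γ, β, j, hγ, lt_of_le_of_lt (le_max_left _ _) h1, lt_of_le_of_lt (le_max_right _ _) h1, hj⟩

theorem aleph0_lt (h : Extendible κ) : ℵ₀ < κ := by
  obtain ⟨γ, β, j, hγ, hκ, -, hj⟩ := h.limit 0
  have h1 : ω ≤ κ.ord := omega0_le_of_isSuccLimit (hj.κ_lim hγ hκ)
  have h2 : ω < κ.ord := lt_of_le_of_ne h1 (hj.κ_ne_omega hγ hκ).symm
  rw [← ord_aleph0] at h2
  exact Cardinal.ord_lt_ord.1 h2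

theorem regular (h : Extendible κ) : κ.IsRegular := by
  obtain ⟨γ, β, j, hγ, hκ, -, hj⟩ := h.limit 0
  refine ⟨h.aleph0_lt.le, ?_⟩
  exact le_cof_iff.2 fun ρ hρ => hj.not_cofW hγ hκ hρ

theorem two_power_lt (h : Extendible κ) {η : Cardinal.{0}} (hη : η < κ) :
    (2 : Cardinal.{0}) ^ η < κ := by
  by_contra hcon
  push Not at hcon
  have h1 : #κ.ord.ToType ≤ #(Set η.ord.ToType) := by
    rw [mk_set, mk_toType, mk_toType, card_ord, card_ord]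
    exact hcon
  obtain ⟨g⟩ := (Cardinal.le_def _ _).1 h1
  classical
  let X : Ordinal.{0} → ZFSet.{0} := fun a =>
    if ha : a < κ.ord then ordSet η.ord {ξ | ∃ hξ : ξ < η.ord,
      ToType.mk ⟨ξ, hξ⟩ ∈ g (ToType.mk ⟨a, ha⟩)} else ∅
  obtain ⟨γ, β, j, hγ, hκ, hG, hj⟩ := h.limit (gr κ.ord X).rank
  refine hj.no_inj hγ hκ (Cardinal.ord_lt_ord.2 hη) X ?_ ?_ (mem_vonNeumann.2 hG)
  · intro a ha
    simp only [X]
    rw [dif_pos ha]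
    exact ordSet_sub _ _
  · intro a ha b hb hab
    simp only [X] at hab
    rw [dif_pos ha, dif_pos hb] at hab
    have h2 : g (ToType.mk ⟨a, ha⟩) = g (ToType.mk ⟨b, hb⟩) := by
      ext t
      obtain ⟨⟨ξ, hξ⟩, rfl⟩ := ToType.mk.surjective t
      have h3 : ξ ∈ st (ordSet η.ord {ξ | ∃ hξ : ξ < η.ord,
          ToType.mk ⟨ξ, hξ⟩ ∈ g (ToType.mk ⟨a, ha⟩)}) ↔ ξ ∈ st (ordSet η.ord
          {ξ | ∃ hξ : ξ < η.ord, ToType.mk ⟨ξ, hξ⟩ ∈ g (ToType.mk ⟨b, hb⟩)}) := by rw [hab]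
      rw [mem_st_ordSet, mem_st_ordSet] at h3
      constructor
      · intro h4
        obtain ⟨-, h5, h6⟩ := h3.1 ⟨hξ, hξ, h4⟩
        exact h6
      · intro h4
        obtain ⟨-, h5, h6⟩ := h3.2 ⟨hξ, hξ, h4⟩
        exact h6
    have h7 := ToType.mk.injective (g.injective h2)
    exact congrArg Subtype.val h7

end Extendible

end Pool.Agent.Helper73.HX
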