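import Pool.Agent.Helper73.HX.SC2
import Pool.Agent.Helper73.HU.St

/-!
# HX: a uniform bound for the length of ordinal definable sequences of disjoint stationary sets
-/

namespace Pool.Agent.Helper73.HX

open Ordinal Cardinal ZFSet Order Pool.Agent.Helper73.HODC Pool.Agent.Helper73.HE
  Pool.Agent.Helper73.HM Pool.Agent.Helper73.HU

/-! ### relations coded by sets -/

/-- the set coding a relation between `η` and `τ` -/
noncomputable def relSet (Q : Ordinal.{0} → Ordinal.{0} → Prop) (η τ : Ordinal.{0}) : ZFSet.{0} :=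
  pairSep (fun x y => Q x.rank y.rank) η.toZFSet τ.toZFSet

theorem mem_relSet {Q : Ordinal.{0} → Ordinal.{0} → Prop} {η τ : Ordinal.{0}} {z : ZFSet.{0}} :
    z ∈ relSet Q η τ ↔ ∃ ξ < η, ∃ a < τ, z = ZFSet.pair ξ.toZFSet a.toZFSet ∧ Q ξ a := by
  rw [relSet, mem_pairSep]
  constructor
  · rintro ⟨x, hx, y, hy, rfl, h⟩
    obtain ⟨ξ, hξ, rfl⟩ := mem_toZFSet_iff.1 hx
    obtain ⟨a, ha, rfl⟩ := mem_toZFSet_iff.1 hy
    rw [rank_toZFSet, rank_toZFSet] at h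
    exact ⟨ξ, hξ, a, ha, rfl, h⟩
  · rintro ⟨ξ, hξ, a, ha, rfl, h⟩
    refine ⟨_, mem_toZFSet.2 hξ, _, mem_toZFSet.2 ha, rfl, ?_⟩
    rwa [rank_toZFSet, rank_toZFSet]

theorem fnSet_relSet {Q : Ordinal.{0} → Ordinal.{0} → Prop} {η τ ξ a : Ordinal.{0}} :
    a ∈ fnSet (relSet Q η τ) ξ ↔ ξ < η ∧ a < τ ∧ Q ξ a := by
  constructor
  · rintro ⟨u, w, h, rfl, rfl⟩
    obtain ⟨ξ, hξ, a, ha, h1, h2⟩ := mem_relSet.1 h
    obtain ⟨rfl, rfl⟩ := pair_inj.1 h1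
    rw [rank_toZFSet, rank_toZFSet]
    exact ⟨hξ, ha, h2⟩
  · rintro ⟨h1, h2, h3⟩
    exact ⟨_, _, mem_relSet.2 ⟨ξ, h1, a, h2, rfl, h3⟩, rank_toZFSet _, rank_toZFSet _⟩

theorem od_relSet {Q : Ordinal.{0} → Ordinal.{0} → Prop} (h : ODRel Q) (η τ : Ordinal.{0}) :
    OD (relSet Q η τ) := by
  rw [odRel_iff_DP] at h
  refine DP.od ((DP.all (Q := fun z v => z ∈ v 0 ↔ ∃ x y : ZFSet.{0}, z = ZFSet.pair x y ∧
    ((x = x.rank.toZFSet ∧ y = y.rank.toZFSet) ∧ (x.rank < η ∧ y.rank < τ)) ∧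
      Q x.rank y.rank) ?_).congr fun v => ?_)
  · refine (DP.mem 0 1).iff ?_
    refine DP.ex (Q := fun x v => ∃ y : ZFSet.{0}, v 0 = ZFSet.pair x y ∧
      ((x = x.rank.toZFSet ∧ y = y.rank.toZFSet) ∧ (x.rank < η ∧ y.rank < τ)) ∧
        Q x.rank y.rank) ?_
    refine DP.ex (Q := fun y v => v 1 = ZFSet.pair (v 0) y ∧
      ((v 0 = (v 0).rank.toZFSet ∧ y = y.rank.toZFSet) ∧ ((v 0).rank < η ∧ y.rank < τ)) ∧
        Q (v 0).rank y.rank) ?_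
    refine (DP.pair 2 1 0).and ((((DP.isOrd 1).and (DP.isOrd 0)).and
      ((DP.rank_lt_ord 1 η).and (DP.rank_lt_ord 0 τ))).and ?_)
    exact h.rename (fun n => if n = 0 then 1 else 0)
  · rw [ZFSet.ext_iff]
    refine forall_congr' fun z => iff_congr Iff.rfl ?_
    rw [mem_relSet]
    constructor
    · rintro ⟨ξ, hξ, a, ha, rfl, h2⟩
      refine ⟨_, _, rfl, ⟨⟨by rw [rank_toZFSet], by rw [rank_toZFSet]⟩, ?_, ?_⟩, ?_⟩
      · rwa [rank_toZFSet]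
      · rwa [rank_toZFSet]
      · rwa [rank_toZFSet, rank_toZFSet]
    · rintro ⟨x, y, rfl, ⟨⟨hx, hy⟩, hx', hy'⟩, h2⟩
      exact ⟨_, hx', _, hy', by rw [← hx, ← hy], h2⟩

/-! ### definability without parameters in a level -/

/-- `s` is defined in `V_a` by `φ` -/
def DefIn (φ : Fm) (a : Ordinal.{0}) (s : ZFSet.{0}) : Prop :=
  s.rank < a ∧ ∀ y : ZFSet.{0}, y.rank < a → (Sat {z | z ∈ V_ a} φ (fun _ => y) ↔ y = s)

theorem od_iff_defIn (hOZ : StOZ) {s : ZFSet.{0}} : OD s ↔ ∃ φ a, DefIn φ a s := by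
  rw [hOZ]
  constructor
  · rintro ⟨θ, c, φ, -, h1, h2⟩
    exact ⟨φ, θ, mem_vonNeumann.1 h1, fun y hy => h2 y (mem_vonNeumann.2 hy)⟩
  · rintro ⟨φ, a, h1, h2⟩
    exact ⟨a, code φ, φ, rfl, mem_vonNeumann.2 h1, fun y hy => h2 y (mem_vonNeumann.1 hy)⟩

theorem dfnL_defIn (φ : Fm) (i k : ℕ) : DfnL (fun v => DefIn φ (v i).rank (v k)) := by
  refine (dfnL_rank_lt k i).and ?_
  refine DfnL.all (Q := fun y v => y.rank < (v i).rank →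
    (Sat {z | z ∈ V_ (v i).rank} φ (fun _ => y) ↔ y = v k)) ?_ ?_
  · exact (dfnL_rank_lt 0 (i + 1)).imp
      ((dfnL_satV φ (i + 1) (fun _ => 0)).iff (DfnL.eq 0 (k + 1)))
  · rintro θ - v hv ⟨y, hy⟩
    push Not at hy
    refine ⟨y, mem_vonNeumann.2 (hy.1.trans (mem_vonNeumann.1 (hv i))), ?_⟩
    intro hcon
    rcases hy.2 with h | h
    · exact h.2 ((hcon hy.1).1 h.1)
    · exact h.1 ((hcon hy.1).2 h.2)

theorem dp_defIn {φ : Fm} {a : Ordinal.{0}} {s : ZFSet.{0}} (h : DefIn φ a s) (i : ℕ) :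
    DP (fun v => v i = s) := by
  refine (DP.ex (Q := fun t v => t = a.toZFSet ∧ (v i).rank < t.rank ∧
    Sat {z | z ∈ V_ t.rank} φ (fun _ => v i)) ?_).congr fun v => ?_
  · exact (DP.eq_ord 0 a).and ((DP.rank_lt (i + 1) 0).and
      (DP.of (dfn_satV φ 0 (fun _ => i + 1))))
  · constructor
    · intro hv
      refine ⟨_, rfl, ?_, ?_⟩
      · rw [rank_toZFSet, hv]
        exact h.1
      · rw [rank_toZFSet, hv]
        exact (h.2 s h.1).2 rfl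
    · rintro ⟨t, rfl, h1, h2⟩
      rw [rank_toZFSet] at h1 h2
      exact (h.2 _ h1).1 h2

/-! ### sequences of stationary sets -/

/-- `s` codes a sequence of length `η` of pairwise disjoint stationary subsets of `τ` which
consist of ordinals of cofinality `ν`, and the cofinality of `τ` is at least `κ` -/
def SeqIn (η τ : Ordinal.{0}) (s : ZFSet.{0}) (κ ν : Ordinal.{0}) : Prop :=
  (∀ ρ < κ, ¬ CofW ρ τ) ∧ (∀ ξ < η, Stat {a | a ∈ fnSet s ξ} τ) ∧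
  (∀ ξ < η, ∀ a < τ, a ∈ fnSet s ξ → CofW ν a ∧ ∀ ρ < ν, ¬ CofW ρ a) ∧
  (∀ ξ < η, ∀ ξ' < η, ∀ a < τ, a ∈ fnSet s ξ → a ∈ fnSet s ξ' → ξ = ξ')

theorem SeqIn.mono {η η' τ : Ordinal.{0}} {s : ZFSet.{0}} {κ ν : Ordinal.{0}}
    (h : SeqIn η τ s κ ν) (h' : η' ≤ η) : SeqIn η' τ s κ ν :=
  ⟨h.1, fun ξ hξ => h.2.1 ξ (hξ.trans_le h'), fun ξ hξ => h.2.2.1 ξ (hξ.trans_le h'),
    fun ξ hξ ξ' hξ' => h.2.2.2 ξ (hξ.trans_le h') ξ' (hξ'.trans_le h')⟩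

theorem dfnL_seqIn (e t s k n : ℕ) :
    DfnL (fun v => SeqIn (v e).rank (v t).rank (v s) (v k).rank (v n).rank) := by
  refine DfnL.and ?_ (DfnL.and ?_ (DfnL.and ?_ ?_))
  · exact DfnL.allLt (Q := fun ρ v => ¬ CofW ρ (v t).rank) k (dfnL_cofW 0 (t + 1)).not
  · refine DfnL.allLt (Q := fun ξ v => Stat {a | a ∈ fnSet (v s) ξ} (v t).rank) e ?_
    exact DfnL.stat (Q := fun a v => a ∈ fnSet (v (s + 1)) (v 0).rank) (t + 1)
      (dfnL_fnSet (s + 2) 1 0)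
  · refine DfnL.allLt (Q := fun ξ v => ∀ a < (v t).rank, a ∈ fnSet (v s) ξ →
      CofW (v n).rank a ∧ ∀ ρ < (v n).rank, ¬ CofW ρ a) e ?_
    refine DfnL.allLt (Q := fun a v => a ∈ fnSet (v (s + 1)) (v 0).rank →
      CofW (v (n + 1)).rank a ∧ ∀ ρ < (v (n + 1)).rank, ¬ CofW ρ a) (t + 1) ?_
    refine (dfnL_fnSet (s + 2) 1 0).imp ((dfnL_cofW (n + 2) 0).and ?_)
    exact DfnL.allLt (Q := fun ρ v => ¬ CofW ρ (v 0).rank) (n + 2) (dfnL_cofW 0 1).not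
  · refine DfnL.allLt (Q := fun ξ v => ∀ ξ' < (v e).rank, ∀ a < (v t).rank, a ∈ fnSet (v s) ξ →
      a ∈ fnSet (v s) ξ' → ξ = ξ') e ?_
    refine DfnL.allLt (Q := fun ξ' v => ∀ a < (v (t + 1)).rank,
      a ∈ fnSet (v (s + 1)) (v 0).rank → a ∈ fnSet (v (s + 1)) ξ' → (v 0).rank = ξ') (e + 1) ?_
    refine DfnL.allLt (Q := fun a v => a ∈ fnSet (v (s + 2)) (v 1).rank →
      a ∈ fnSet (v (s + 2)) (v 0).rank → (v 1).rank = (v 0).rank) (t + 2) ?_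
    exact (dfnL_fnSet (s + 3) 2 0).imp ((dfnL_fnSet (s + 3) 1 0).imp (dfnL_rank_eq 2 1))

/-- the existential quantifier -/
def exF (φ : Fm) : Fm := .neg (.all (.neg φ))

theorem sat_exF (M : Set ZFSet.{0}) (φ : Fm) (v : ℕ → ZFSet.{0}) :
    Sat M (exF φ) v ↔ ∃ x ∈ M, Sat M φ (cons x v) := by
  simp only [exF, Sat]
  push Not
  rfl

/-- pigeonhole principle for countably many classes -/
theorem pigeon_Fm {κ : Cardinal.{0}} (hκ : κ.IsRegular) (hunc : ℵ₀ < κ)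
    (φ : Ordinal.{0} → Fm) : ∃ ψ, ∀ η < κ.ord, ∃ η' < κ.ord, η ≤ η' ∧ φ η' = ψ := by
  by_contra hcon
  push Not at hcon
  choose b hb hb' using hcon
  have h1 : (⨆ ψ, b ψ) < κ.ord := by
    refine Ordinal.iSup_lt_of_lt_cof ?_ hb
    rw [hκ.cof_ord]
    exact (Cardinal.mk_le_aleph0_iff.2 countable_Fm).trans_lt hunc
  exact hb' (φ (⨆ ψ, b ψ)) _ h1 (Ordinal.le_iSup b _) rfl

/-- the uniform bound -/
theorem uniform (hOZ : StOZ) (hCV : StCVO) {κ : Cardinal.{0}} (hE : Extendible κ)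
    (hα : ∃ α : Ordinal.{0}, IsSuccLimit α ∧ κ.ord ≤ α ∧ α.cof < κ ∧ ¬ HODSing α)
    {ν : Ordinal.{0}} (hν : ν < κ.ord) :
    ∃ η < κ.ord, ∀ τ s, OD s → ¬ SeqIn η τ s κ.ord ν := by
  classical
  have hSC := hE.stronglyCompact
  obtain ⟨α, hα1, hα2, hα3, hα4⟩ := hα
  by_contra hcon
  push Not at hcon
  have h1 : ∀ η : Ordinal.{0}, ∃ (φ : Fm) (τ : Ordinal.{0}) (s : ZFSet.{0}) (a : Ordinal.{0}),
      η < κ.ord → DefIn φ a s ∧ SeqIn η τ s κ.ord ν := by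
    intro η
    by_cases hη : η < κ.ord
    · obtain ⟨τ, s, hs, hs'⟩ := hcon η hη
      obtain ⟨φ, a, h⟩ := (od_iff_defIn hOZ).1 hs
      exact ⟨φ, τ, s, a, fun _ => ⟨h, hs'⟩⟩
    · exact ⟨.mem 0 0, 0, ∅, 0, fun h => absurd h hη⟩
  choose φ τ s a h1 using h1
  obtain ⟨ψ, hψ⟩ := pigeon_Fm hSC.reg hSC.unc φ
  have h2 : ∀ η < κ.ord, ∃ η' < κ.ord, DefIn ψ (a η') (s η') ∧
      SeqIn η (τ η') (s η') κ.ord ν := by
    intro η hη
    obtain ⟨η', hη', hle, hφ⟩ := hψ η hη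
    obtain ⟨h3, h4⟩ := h1 η' hη'
    rw [hφ] at h3
    exact ⟨η', hη', h3, h4.mono hle⟩
  -- the level
  let B : Ordinal.{0} := ⨆ x : Set.Iio κ.ord, max (τ x.1) (max (a x.1) (s x.1).rank)
  have hB : ∀ x < κ.ord, max (τ x) (max (a x) (s x).rank) ≤ B := fun x hx =>
    le_ciSup (f := fun x : Set.Iio κ.ord => max (τ x.1) (max (a x.1) (s x.1).rank))
      bddAbove_of_small ⟨x, hx⟩
  set κ₀ : Cardinal.{0} := succ (max κ α.card) with hκ₀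
  obtain ⟨γ, β, j, hγ, hκγ, hb, hj⟩ := hE.limit (max B κ₀.ord)
  have hBγ : B < γ := lt_of_le_of_lt (le_max_left _ _) hb
  have hκ₀γ : κ₀.ord < γ := lt_of_le_of_lt (le_max_right _ _) hb
  have hβ := hj.lim hγ
  have hγβ : γ < β := (hj.lt_jo hγ hκγ).trans (hj.jo_lt_β hκγ)
  -- the formula
  obtain ⟨χ, hχ⟩ : DfnL (fun v => DefIn ψ (v 0).rank (v 1) ∧
      SeqIn (v 3).rank (v 2).rank (v 1) (v 4).rank (v 5).rank) :=
    (dfnL_defIn ψ 0 1).and (dfnL_seqIn 3 2 1 4 5)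
  have hval : ∀ θ : Ordinal.{0}, IsSuccLimit θ → ∀ v, InV θ v → (Sat {z | z ∈ V_ θ}
      (.all (.neg (.and (.mem 0 1) (.neg (exF (exF (exF χ))))))) v ↔
      ∀ x ∈ V_ θ, x ∈ v 0 → ∃ t ∈ V_ θ, ∃ u ∈ V_ θ, ∃ w ∈ V_ θ, DefIn ψ w.rank u ∧
        SeqIn x.rank t.rank u (v 0).rank (v 1).rank) := by
    intro θ hθ v hv
    have h3 : ∀ x ∈ V_ θ, (Sat {z | z ∈ V_ θ} (exF (exF (exF χ))) (cons x v) ↔
        ∃ t ∈ V_ θ, ∃ u ∈ V_ θ, ∃ w ∈ V_ θ, DefIn ψ w.rank u ∧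
        SeqIn x.rank t.rank u (v 0).rank (v 1).rank) := by
      intro x hx
      rw [sat_exF]
      refine exists_congr fun t => and_congr_right fun ht => ?_
      rw [sat_exF]
      refine exists_congr fun u => and_congr_right fun hu => ?_
      rw [sat_exF]
      refine exists_congr fun w => and_congr_right fun hw => ?_
      exact hχ θ hθ _ ((((hv.cons hx).cons ht).cons hu).cons hw)
    show (∀ x ∈ V_ θ, ¬ (x ∈ v 0 ∧ ¬ Sat {z | z ∈ V_ θ} (exF (exF (exF χ))) (cons x v))) ↔ _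
    refine forall₂_congr fun x hx => ?_
    rw [h3 x hx, not_and, not_not]
  have hνγ : ν < γ := hν.trans hκγ
  have hvV : InV γ (as3 κ.ord.toZFSet ν.toZFSet ν.toZFSet) :=
    inV_as3 (toZFSet_mem_V hκγ) (toZFSet_mem_V hνγ) (toZFSet_mem_V hνγ)
  have h3 := (hj.elem _ _ hvV).1 ((hval γ hγ _ hvV).2 (by
    show ∀ x ∈ V_ γ, x ∈ κ.ord.toZFSet → ∃ t ∈ V_ γ, ∃ u ∈ V_ γ, ∃ w ∈ V_ γ,
      DefIn ψ w.rank u ∧ SeqIn x.rank t.rank u κ.ord.toZFSet.rank ν.toZFSet.rank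
    intro x _ hx
    obtain ⟨η, hη, rfl⟩ := mem_toZFSet_iff.1 hx
    obtain ⟨η', hη', h4, h5⟩ := h2 η hη
    have h6 := (hB η' hη').trans_lt hBγ
    rw [max_lt_iff, max_lt_iff] at h6
    refine ⟨(τ η').toZFSet, toZFSet_mem_V h6.1, s η', mem_vonNeumann.2 h6.2.2,
      (a η').toZFSet, toZFSet_mem_V h6.2.1, ?_, ?_⟩
    · rwa [rank_toZFSet]
    · rwa [rank_toZFSet, rank_toZFSet, rank_toZFSet, rank_toZFSet]))
  have h4 := (hval β hβ _ (fun n => hj.maps _ (hvV n))).1 h3 κ₀.ord.toZFSet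
    (toZFSet_mem_V (hκ₀γ.trans hγβ)) (hj.mem_jκ hγ hκγ hκ₀γ.le)
  obtain ⟨t, -, u, -, w, -, h5, h6⟩ := h4
  have h6' : SeqIn κ₀.ord t.rank u (Emb.jo j κ.ord) (Emb.jo j ν) := by
    have h7 : SeqIn κ₀.ord.toZFSet.rank t.rank u (Emb.jo j κ.ord) (Emb.jo j ν) := h6
    rwa [rank_toZFSet] at h7
  rw [hj.jo_fix hν] at h6'
  obtain ⟨h7, h8, h9, h10⟩ := h6'
  have hκt : κ ≤ t.rank.cof :=
    le_cof_iff.2 fun ρ hρ => h7 ρ (hρ.trans (hκγ.trans (hj.lt_jo hγ hκγ)))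
  have hα5 : α ≤ κ₀.ord := by
    have h11 : α.card < κ₀ := lt_of_le_of_lt (le_max_right _ _) (Order.lt_succ _)
    exact (Cardinal.lt_ord.2 h11).le
  refine hα4 (hCV κ t.rank hSC hκt α κ₀.ord hα1 hα2 hα3 hα5
    (fun ξ => {b | b < t.rank ∧ b ∈ fnSet u ξ}) ?_ ?_ ?_ ?_)
  · rw [odRel_iff_DP]
    have h11 : DP (fun v => (v 1).rank ∈ fnSet (v 2) (v 0).rank) := DP.of (dfn_fnSet 2 0 1)
    have h12 : DP (fun v => (v 1).rank ∈ fnSet u (v 0).rank) := by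
      refine (DP.ex (Q := fun y v => y = u ∧ (v 1).rank ∈ fnSet y (v 0).rank) ?_).congr fun v => ?_
      · exact (dp_defIn h5 0).and (DP.of (dfn_fnSet 0 1 2))
      · constructor
        · intro h
          exact ⟨u, rfl, h⟩
        · rintro ⟨y, rfl, h⟩
          exact h
    refine ((DP.rank_lt_ord 0 κ₀.ord).and ((DP.rank_lt_ord 1 t.rank).and h12)).congr fun v => ?_
    constructor
    · rintro ⟨h13, h14, -, h15⟩
      exact ⟨h13, h14, h15⟩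
    · rintro ⟨h13, h14, h15⟩
      exact ⟨h13, h14, h14, h15⟩
  · intro ξ hξ
    intro C hC
    obtain ⟨b, h11, h12, h13⟩ := h8 ξ hξ C hC
    exact ⟨b, ⟨h13, h11⟩, h12, h13⟩
  · intro ξ hξ b hb
    have h11 := card_of_cofW (h9 ξ hξ b hb.1 hb.2).1
    exact h11.trans_lt (Cardinal.lt_ord.1 hν)
  · intro ξ hξ ξ' hξ' b hb hb'
    exact h10 ξ hξ ξ' hξ' b hb.1 hb.2 hb'.2

end Pool.Agent.Helper73.HX
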