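import Pool.Agent.Helper73.HV.Top

/-! # HX: a theorem of ZFC on the cofinalities of the successor cardinals of HOD -/

namespace Pool.Agent.Helper73.HX

open Ordinal Cardinal ZFSet Order Pool.Agent.Helper73.HODC Pool.Agent.Helper73.HE
open Pool.Agent.Helper73.HM Pool.Agent.Helper73.HU Pool.Agent.Helper73.HV

theorem stM : StM := by
  have hTC : StTC := Helper77.HM.TC.tc
  have hTS : StTS := Helper12.HM.ts hTC
  have hTD : StTD := td_of hTC hTS
  have hOZ : StOZ := Helper30.HM.oz hTD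
  have hHP : StHP := hp_of hTD hOZ
  have hLE : StLE := Helper14.HM.le hTC hOZ
  have hLS : StLS := Helper62.HM.LS.ls hTD
  have hLD : StLD := ld_of hHP hLS
  have hNMp : StNMap := Helper68.HU.nmap
  have hTR : StTR := Helper68.HU.tr
  have hFO : StFO := Helper68.HU.fo hNMp hTR
  have hEB : StEB := Helper31.HU.EB.eb
  have hPB : StPB := Helper17.HV.pb hNMp hTR
  exact mthm (Helper76.HV.cp Helper76.HV.exg hLE hLD) (ps hFO hPB) (Helper76.HV.key hEB)
    (jb (Helper8.HU.bd hEB)) (Helper38.HVCU.cu hNMp hTR)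

/-- the successor of an infinite cardinal of `V` in HOD -/
theorem zfc (σ : Cardinal.{0}) (hσ : ℵ₀ ≤ σ) (τ : Ordinal.{0}) (hτ : HODNext σ.ord τ) :
    τ = (succ σ).ord ∨ τ.cof = ℵ₀ ∨ τ.cof = σ.ord.cof := by
  by_cases hω : τ.cof = ℵ₀
  · exact Or.inr (Or.inl hω)
  by_cases hc : τ.cof = σ.ord.cof
  · exact Or.inr (Or.inr hc)
  left
  have hlim : IsSuccLimit σ.ord := Cardinal.isSuccLimit_ord hσ
  have hunc : ℵ₀ < τ.cof := lt_of_le_of_ne
    (Ordinal.aleph0_le_cof_iff.2 (Ordinal.one_lt_cof_iff.2 hτ.2.1.1)) (Ne.symm hω)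
  obtain ⟨γ, hγ, h⟩ := stM σ.ord τ hτ hlim hunc (Ne.symm hc)
  have hs : (succ σ).IsRegular := Cardinal.isRegular_succ hσ
  have hle : τ ≤ (succ σ).ord := by
    by_contra hcon
    exact hτ.2.2 _ (Cardinal.ord_lt_ord.2 (Order.lt_succ σ)) (not_le.1 hcon) (hodReg_of_regular hs)
  have hcof : σ < τ.cof := by
    by_cases hr : σ.IsRegular
    · have h1 := h σ.ord (hodReg_of_regular hr) hγ le_rfl
      rw [hr.cof_ord] at h1 hc
      exact lt_of_le_of_ne h1 (Ne.symm hc)
    · by_contra hcon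
      rw [not_lt] at hcon
      have h2 : τ.cof < σ := by
        refine lt_of_le_of_ne hcon fun h3 => hr ?_
        rw [← h3]
        exact Cardinal.isRegular_cof hτ.2.1.1
      obtain ⟨d, hd, h3, h4, h5⟩ := exists_reg hσ hr hγ h2
      have h6 := h d.ord (hodReg_of_regular hd) h3 (Cardinal.ord_le_ord.2 h5.le)
      rw [hd.cof_ord] at h6
      exact absurd h6 (not_le.2 h4)
  refine le_antisymm hle ?_
  rw [Cardinal.ord_le]
  exact (Order.succ_le_of_lt hcof).trans (Ordinal.cof_le_card τ)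

end Pool.Agent.Helper73.HX
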